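import Mathlib

/-!
# Sums of four pairwise coprime squares: the numbers below 3000
-/

set_option autoImplicit false

namespace Pool.Agent.W65.CS

/-- witnesses -/
def wit : List (ℕ × ℕ × ℕ × ℕ) := [
(0,1,1,1), (1,1,1,1), (1,1,1,2), (1,1,1,3), (1,1,2,3), (1,1,1,4), (1,1,3,4), (1,1,1,5), (1,1,2,5), (1,1,3,5),
(1,1,1,6), (1,1,4,5), (1,3,4,5), (1,1,1,7), (1,1,2,7), (1,1,3,7), (1,1,5,6), (1,1,1,8), (1,1,3,8), (1,1,5,7),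
(1,2,5,7), (1,1,1,9), (1,1,2,9), (1,1,5,8), (1,1,4,9), (1,1,1,10), (1,1,5,9), (1,1,3,10), (1,1,7,8),
(1,3,7,8), (1,1,1,11), (1,1,2,11), (1,1,3,11), (1,2,3,11), (1,1,4,11), (1,1,1,12), (1,1,5,11), (1,1,7,10),
(1,3,5,11), (1,1,6,11), (1,4,5,11), (1,1,5,12), (1,1,1,13), (1,1,2,13), (1,1,3,13), (1,1,9,10), (1,1,4,13),
(1,1,7,12), (1,1,5,13), (1,1,1,14), (1,1,9,11), (1,1,3,14), (1,4,5,13), (1,4,9,11), (1,1,7,13), (1,1,5,14),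
(1,1,1,15), (1,1,2,15), (1,1,8,13), (1,1,4,15), (1,5,7,13), (2,5,7,13), (1,1,9,13), (1,2,9,13), (1,1,1,16),
(1,1,3,16), (1,1,10,13), (1,1,7,15), (1,1,9,14), (1,1,5,16), (1,1,8,15), (1,1,1,17), (1,1,2,17), (1,1,3,17),
(1,2,3,17), (1,1,4,17), (1,1,12,13), (1,1,5,17), (1,1,11,14), (1,3,5,17), (1,1,1,18), (1,4,5,17), (1,1,9,16),
(1,1,7,17), (1,2,7,17), (1,1,11,15), (1,1,5,18), (1,1,8,17), (1,3,8,17), (1,1,1,19), (1,1,2,19), (1,1,3,19),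
(1,1,7,18), (1,1,4,19), (1,3,4,19), (1,1,5,19), (1,1,10,17), (1,1,13,15), (1,1,6,19), (1,1,1,20), (1,1,3,20),
(1,1,7,19), (1,2,7,19), (1,3,7,19), (1,1,14,15), (1,1,8,19), (1,1,12,17), (1,5,7,19), (1,7,10,17), (1,1,1,21),
(1,1,2,21), (1,1,7,20), (1,1,4,21), (1,1,13,17), (1,1,10,19), (1,1,5,21), (1,2,5,21), (1,4,13,17), (1,1,9,20),
(1,1,11,19), (1,1,1,22), (1,3,11,19), (1,1,3,22), (1,4,11,19), (1,1,8,21), (1,5,11,19), (1,1,5,22),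
(1,1,15,17), (1,2,15,17), (1,1,11,20), (1,3,11,20), (1,1,1,23), (1,1,2,23), (1,1,3,23), (1,1,10,21),
(1,1,4,23), (1,3,4,23), (1,1,5,23), (1,1,14,19), (1,1,11,21), (1,1,6,23), (1,1,13,20), (1,1,1,24), (1,1,7,23),
(1,2,7,23), (1,1,15,19), (1,2,15,19), (1,1,8,23), (1,1,5,24), (1,5,7,23), (1,11,14,17), (1,1,9,23),
(1,1,17,18), (1,1,16,19), (1,1,7,24), (1,1,1,25), (1,1,2,25), (1,1,3,25), (1,2,3,25), (1,1,4,25), (1,3,4,25),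
(1,1,11,23), (1,1,13,22), (1,3,11,23), (1,1,6,25), (1,4,11,23), (1,1,12,23), (1,1,7,25), (1,1,1,26),
(1,3,7,25), (1,1,3,26), (1,1,8,25), (1,1,11,24), (1,1,13,23), (1,1,5,26), (1,1,9,25), (1,1,15,22),
(1,4,13,23), (1,4,9,25), (1,5,13,23), (1,1,7,26), (1,1,1,27), (1,1,2,27), (1,7,8,25), (1,1,4,27), (1,1,11,25),
(1,2,11,25), (1,1,5,27), (1,1,9,26), (1,1,19,20), (1,1,12,25), (1,11,17,19), (1,1,17,22), (1,1,7,27),
(1,2,7,27), (1,1,1,28), (1,1,3,28), (1,1,13,25), (1,1,11,26), (1,1,19,21), (1,2,19,21), (1,1,5,28),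
(1,3,5,28), (1,1,17,23), (1,1,14,25), (1,3,17,23), (1,1,10,27), (1,4,17,23), (1,1,20,21), (1,1,1,29),
(1,1,2,29), (1,1,3,29), (1,1,18,23), (1,1,4,29), (1,1,9,28), (1,1,5,29), (1,2,5,29), (1,3,5,29), (1,1,6,29),
(1,1,16,25), (1,3,16,25), (1,1,7,29), (1,2,7,29), (1,1,13,27), (1,1,1,30), (1,1,8,29), (1,3,8,29),
(1,1,17,25), (1,2,17,25), (1,1,9,29), (1,1,14,27), (1,1,20,23), (1,1,19,24), (1,7,19,23), (1,1,10,29),
(1,5,9,29), (1,1,7,30), (1,1,13,28), (1,3,13,28), (1,1,1,31), (1,1,2,31), (1,1,3,31), (1,2,3,31), (1,1,4,31),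
(1,1,12,29), (1,1,5,31), (1,2,5,31), (1,3,5,31), (1,1,6,31), (1,4,5,31), (1,1,15,28), (1,1,7,31), (1,1,22,23),
(1,1,17,27), (1,1,11,30), (1,1,1,32), (1,1,3,32), (1,5,7,31), (1,1,14,29), (1,1,9,31), (1,2,9,31), (1,1,5,32),
(1,3,5,32), (1,7,13,29), (1,1,10,31), (1,1,15,29), (1,1,13,30), (1,1,7,32), (1,3,7,32), (1,1,11,31),
(1,2,11,31), (1,1,1,33), (1,1,2,33), (1,1,16,29), (1,1,4,33), (1,5,11,31), (1,1,22,25), (1,1,5,33),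
(1,1,21,26), (1,5,16,29), (1,1,20,27), (1,1,13,31), (1,2,13,31), (1,1,7,33), (1,2,7,33), (1,1,11,32),
(1,1,8,33), (1,1,23,25), (1,1,1,34), (1,3,23,25), (1,1,3,34), (1,4,23,25), (1,5,8,33), (1,7,13,31),
(1,1,5,34), (1,1,15,31), (1,1,10,33), (1,1,13,32), (1,1,24,25), (1,1,19,29), (1,1,7,34), (1,3,19,29),
(1,1,22,27), (1,1,16,31), (1,3,16,31), (1,1,1,35), (1,1,2,35), (1,1,3,35), (1,1,9,34), (1,1,4,35),
(1,1,15,32), (1,1,17,31), (1,2,17,31), (1,1,13,33), (1,1,6,35), (1,4,17,31), (1,4,13,33), (1,5,17,31),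
(1,1,11,34), (1,1,21,29), (1,1,14,33), (1,1,8,35), (1,1,1,36), (1,7,17,31), (1,1,25,26), (1,1,9,35),
(1,2,9,35), (1,1,17,32), (1,1,5,36), (1,1,19,31), (1,1,13,34), (1,3,19,31), (1,3,13,34), (1,4,19,31),
(1,1,7,36), (1,1,11,35), (1,2,11,35), (1,1,25,27), (1,2,25,27), (1,1,20,31), (1,1,12,35), (1,1,1,37),
(1,1,2,37), (1,1,3,37), (1,1,15,34), (1,1,4,37), (1,3,4,37), (1,1,5,37), (1,2,5,37), (1,1,21,31), (1,1,6,37),
(1,1,25,28), (1,1,11,36), (1,1,7,37), (1,2,7,37), (1,3,7,37), (1,1,23,30), (1,1,8,37), (1,3,8,37), (1,5,7,37),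
(1,1,1,38), (1,1,9,37), (1,1,3,38), (1,5,8,37), (1,1,13,36), (1,1,25,29), (1,1,5,38), (1,3,25,29), (1,3,5,38),
(1,1,16,35), (1,1,20,33), (1,1,11,37), (1,1,7,38), (1,3,11,37), (1,3,7,38), (1,4,11,37), (1,1,12,37),
(1,1,17,35), (1,1,19,34), (1,1,1,39), (1,1,2,39), (1,4,17,35), (1,1,4,39), (1,1,13,37), (1,2,13,37),
(1,1,5,39), (1,1,18,35), (1,1,23,32), (1,3,23,32), (1,5,13,37), (1,1,11,38), (1,1,7,39), (1,2,7,39),
(1,5,23,32), (1,1,8,39), (1,1,19,35), (1,2,19,35), (1,1,15,37), (1,1,21,34), (1,1,1,40), (1,1,3,40),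
(1,11,23,31), (1,1,13,38), (1,1,23,33), (1,1,10,39), (1,1,16,37), (1,3,16,37), (1,7,25,31), (1,1,26,31),
(1,1,11,39), (1,2,11,39), (1,1,7,40), (1,1,19,36), (1,1,17,37), (1,2,17,37), (1,3,17,37), (1,1,15,38),
(1,4,17,37), (1,1,9,40), (1,1,1,41), (1,1,2,41), (1,1,3,41), (1,1,18,37), (1,1,4,41), (1,3,4,41), (1,1,5,41),
(1,1,22,35), (1,1,25,33), (1,1,6,41), (1,1,11,40), (1,3,11,40), (1,1,7,41), (1,1,17,38), (1,3,7,41),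
(1,1,29,30), (1,1,8,41), (1,1,27,32), (1,1,23,35), (1,2,23,35), (1,1,9,41), (1,1,1,42), (1,1,13,40),
(1,1,16,39), (1,7,19,37), (1,1,10,41), (1,5,9,41), (1,1,5,42), (1,7,8,41), (1,1,24,35), (1,1,11,41),
(1,2,11,41), (1,1,17,39), (1,2,17,39), (1,4,11,41), (1,1,12,41), (1,5,11,41), (1,7,10,41), (1,5,17,39),
(1,6,11,41), (1,16,19,35), (1,5,12,41), (1,1,1,43), (1,1,2,43), (1,1,3,43), (1,1,30,31), (1,1,4,43),
(1,1,28,33), (1,1,5,43), (1,1,14,41), (1,1,19,39), (1,1,6,43), (1,1,17,40), (1,3,17,40), (1,1,7,43),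
(1,1,26,35), (1,1,15,41), (1,2,15,41), (1,1,8,43), (1,1,20,39), (1,5,7,43), (1,14,19,37), (1,1,9,43),
(1,1,13,42), (1,1,1,44), (1,1,3,44), (1,7,23,37), (1,1,10,43), (1,1,27,35), (1,2,27,35), (1,1,5,44),
(1,3,5,44), (1,1,11,43), (1,1,23,38), (1,3,11,43), (1,3,23,38), (1,1,7,44), (1,1,12,43), (1,1,25,37),
(1,1,29,34), (1,3,25,37), (1,1,18,41), (1,4,25,37), (1,1,9,44), (1,1,13,43), (1,2,13,43), (1,1,1,45),
(1,1,2,45), (1,4,13,43), (1,1,4,45), (1,1,19,41), (1,1,14,43), (1,1,23,39), (1,1,17,42), (1,4,19,41),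
(1,4,23,39), (1,1,29,35), (1,1,25,38), (1,1,7,45), (1,2,7,45), (1,1,20,41), (1,1,8,45), (1,7,19,41),
(1,7,26,37), (1,1,27,37), (1,2,27,37), (1,1,13,44), (1,1,32,33), (1,11,25,37), (1,1,1,46), (1,1,21,41),
(1,1,3,46), (1,1,23,40), (1,1,29,36), (1,1,17,43), (1,1,5,46), (1,1,11,45), (1,2,11,45), (1,1,28,37),
(1,1,15,44), (1,5,17,43), (1,1,7,46), (1,11,23,39), (1,1,18,43), (1,5,28,37), (1,7,29,36), (1,1,31,35),
(1,2,31,35), (1,1,13,45), (1,1,9,46), (1,4,31,35), (1,4,13,45), (1,1,1,47), (1,1,2,47), (1,1,3,47),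
(1,1,14,45), (1,1,4,47), (1,3,4,47), (1,1,5,47), (1,1,11,46), (1,3,5,47), (1,1,6,47), (1,1,20,43),
(1,1,24,41), (1,1,7,47), (1,2,7,47), (1,3,7,47), (1,1,30,37), (1,1,8,47), (1,1,16,45), (1,5,7,47),
(1,1,13,46), (1,1,9,47), (1,1,23,42), (1,1,19,44), (1,1,1,48), (1,1,25,41), (1,1,10,47), (1,1,17,45),
(1,2,17,45), (1,4,25,41), (1,1,5,48), (1,1,11,47), (1,1,22,43), (1,3,11,47), (1,1,15,46), (1,4,11,47),
(1,1,7,48), (1,5,11,47), (1,1,26,41), (1,1,29,39), (1,2,29,39), (1,8,25,41), (1,1,21,44), (1,1,13,47),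
(1,1,34,35), (1,1,19,45), (1,1,25,42), (1,1,32,37), (1,3,32,37), (1,1,1,49), (1,1,2,49), (1,1,3,49),
(1,2,3,49), (1,1,4,49), (1,1,11,48), (1,1,5,49), (1,2,5,49), (1,1,15,47), (1,1,6,49), (1,1,29,40),
(1,3,29,40), (1,11,31,37), (1,7,17,46), (1,1,33,37), (1,2,33,37), (1,1,8,49), (1,1,13,48), (1,1,25,43),
(1,1,19,46), (1,1,9,49), (1,2,9,49), (1,4,25,43), (1,4,9,49), (1,1,17,47), (1,1,1,50), (1,3,17,47),
(1,1,3,50), (1,4,17,47), (1,1,35,36), (1,1,11,49), (1,1,26,43), (1,3,11,49), (1,1,18,47), (1,4,11,49),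
(1,1,12,49), (1,5,11,49), (1,1,7,50), (1,1,23,45), (1,1,21,46), (1,1,25,44), (1,3,25,44), (1,1,13,49),
(1,2,13,49), (1,1,27,43), (1,1,9,50), (1,4,13,49), (1,1,17,48), (1,1,35,37), (1,2,35,37), (1,1,1,51),
(1,1,2,51), (1,1,20,47), (1,1,4,51), (1,7,19,47), (1,1,11,50), (1,1,5,51), (1,2,5,51), (1,1,28,43),
(1,3,28,43), (1,1,31,41), (1,2,31,41), (1,1,7,51), (1,2,7,51), (1,1,16,49), (1,1,8,51), (1,5,31,41),
(1,1,13,50), (1,5,7,51), (1,1,34,39), (1,5,16,49), (1,1,33,40), (1,1,17,49), (1,1,22,47), (1,3,17,49),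
(1,1,10,51), (1,1,1,52), (1,1,3,52), (1,5,17,49), (1,5,22,47), (1,1,11,51), (1,1,18,49), (1,1,5,52),
(1,3,5,52), (1,1,23,47), (1,1,25,46), (1,1,35,39), (1,1,30,43), (1,1,7,52), (1,3,7,52), (1,1,19,49),
(1,2,19,49), (1,1,13,51), (1,2,13,51), (1,1,29,44), (1,1,9,52), (1,5,19,49), (1,1,17,50), (1,5,13,51),
(1,1,14,51), (1,1,20,49), (1,1,28,45), (1,1,1,53), (1,1,2,53), (1,1,3,53), (1,2,3,53), (1,1,4,53),
(1,1,23,48), (1,1,5,53), (1,1,34,41), (1,3,5,53), (1,1,6,53), (1,4,5,53), (1,1,16,51), (1,1,7,53),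
(1,1,19,50), (1,1,29,45), (1,2,29,45), (1,1,8,53), (1,3,8,53), (1,5,7,53), (1,1,22,49), (1,1,9,53),
(1,2,9,53), (1,1,31,44), (1,3,31,44), (1,1,35,41), (1,1,10,53), (1,3,35,41), (1,1,1,54), (1,4,35,41),
(1,1,15,52), (1,1,11,53), (1,2,11,53), (1,1,27,47), (1,1,5,54), (1,4,11,53), (1,1,12,53), (1,5,11,53),
(1,1,29,46), (1,1,19,51), (1,1,7,54), (1,1,37,40), (1,1,24,49), (1,1,13,53), (1,2,13,53), (1,1,31,45),
(1,2,31,45), (1,1,17,52)]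

/-- the congruence conditions, as a Boolean -/
def admB (n : ℕ) : Bool := (n % 8 == 3 || n % 8 == 4 || n % 8 == 7) && !(n % 3 == 2)

def val (t : ℕ × ℕ × ℕ × ℕ) : ℕ := t.1 ^ 2 + t.2.1 ^ 2 + t.2.2.1 ^ 2 + t.2.2.2 ^ 2

def copB (t : ℕ × ℕ × ℕ × ℕ) : Bool :=
  Nat.gcd t.1 t.2.1 == 1 && Nat.gcd t.1 t.2.2.1 == 1 && Nat.gcd t.1 t.2.2.2 == 1 &&
    Nat.gcd t.2.1 t.2.2.1 == 1 && Nat.gcd t.2.1 t.2.2.2 == 1 && Nat.gcd t.2.2.1 t.2.2.2 == 1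

theorem wit_val : wit.map val = (List.range 3000).filter (fun n => admB n && !(n == 100) && !(n == 268)) := by
  decide +kernel

theorem wit_cop : wit.all copB = true := by
  decide +kernel

theorem no100 : ∀ a < 11, ∀ b < 11, ∀ c < 11, ∀ d < 11, val (a, b, c, d) = 100 → copB (a, b, c, d) = false := by
  decide +kernel

theorem no268 : ∀ a < 17, ∀ b < 17, ∀ c < 17, ∀ d < 17, val (a, b, c, d) = 268 → copB (a, b, c, d) = false := by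
  decide +kernel

end Pool.Agent.W65.CS
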