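import Pool.Agent.W65.CS.Main

/-!
# Sums of four pairwise coprime squares: conclusion
-/

set_option autoImplicit false
open Finset

namespace Pool.Agent.W65.CS

open Pool.Agent.W65.FS

lemma dens_bound (n l : ℕ) (hl : l.Prime) (h52 : 52 < l) : ((BB n l).card : ℝ) / (Gl n l).card ≤ 13 * ((l : ℝ) ^ 2)⁻¹ := by
  have h1 : ((BB n l).card : ℝ) ≤ 12 * l := by exact_mod_cast BB_card l hl n
  have h2 := count_lower l hl (by omega) n
  have hl52 : (52 : ℝ) < l := by exact_mod_cast h52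
  have hsq : (52 : ℝ) ^ 2 < (l : ℝ) ^ 2 := by nlinarith
  have hpos : 0 < (l : ℝ) ^ 3 - l := by
    have : (l : ℝ) ^ 3 - l = l * ((l : ℝ) ^ 2 - 1) := by ring
    rw [this]
    apply mul_pos <;> linarith
  calc ((BB n l).card : ℝ) / (Gl n l).card ≤ (12 * l) / ((l : ℝ) ^ 3 - l) :=
        div_le_div₀ (by positivity) h1 hpos h2
    _ ≤ 13 * ((l : ℝ) ^ 2)⁻¹ := by
      rw [← div_eq_mul_inv, div_le_div_iff₀ hpos (by positivity)]
      have : 13 * ((l : ℝ) ^ 3 - l) - 12 * l * (l : ℝ) ^ 2 = l * ((l : ℝ) ^ 2 - 13) := by ring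
      have h3 : 0 ≤ l * ((l : ℝ) ^ 2 - 13) := by
        apply mul_nonneg <;> linarith
      linarith

theorem main_count (ε : ℝ) (hε : 0 < ε) (hε1 : ε ≤ 1 / 4000) : ∃ n0 : ℕ, ∀ n : ℕ, n0 ≤ n →
    (n % 8 = 3 ∨ n % 8 = 4 ∨ n % 8 = 7) → n % 3 ≠ 2 → ∃ S : Finset (Fin 4 → ℤ), (n : ℝ) ^ (1 - ε) ≤ S.card ∧
      ∀ X ∈ S, ∑ i, X i ^ 2 = n ∧ ∀ i j, i ≠ j → Int.gcd (X i) (X j) = 1 := by
  classical
  obtain ⟨c, hc, n1, hmass⟩ := mass (ε / 2) (by positivity) (by linarith)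
  obtain ⟨C, hC, hdist⟩ := distribution
  obtain ⟨C', hC', hLL⟩ := LL_bound (1 / 4000) (by norm_num)
  have hM0r : (1 : ℝ) ≤ M0 := by exact_mod_cast M0pos
  obtain ⟨n2, hn2⟩ := large_rpow (C * (M0 : ℝ) ^ 11 / (c / 8)) (1 / 100) (by norm_num)
  obtain ⟨n3, hn3⟩ := large_rpow (2 * C' / (c / 8)) (1 / 4000) (by norm_num)
  obtain ⟨n4, hn4⟩ := large_rpow (1 / (c / 2)) (ε / 2) (by positivity)
  refine ⟨n1 + n2 + n3 + n4 + 1, ?_⟩
  intro n hnbig h8 h3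
  have hn : 1 ≤ n := by omega
  have hnr : (1 : ℝ) ≤ n := by exact_mod_cast hn
  have hn0 : (0 : ℝ) < n := by linarith
  have hn2' := hn2 n (by omega)
  have hn3' := hn3 n (by omega)
  have hn4' := hn4 n (by omega)
  have htype : Odd n ∨ ∃ m, Odd m ∧ n = 4 * m := by
    rcases h8 with h | h | h
    · left; rw [Nat.odd_iff]; omega
    · right
      refine ⟨n / 4, ?_, by omega⟩
      rw [Nat.odd_iff]; omega
    · left; rw [Nat.odd_iff]; omega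
  obtain ⟨u, hu, hA, hAT⟩ := hmass n (by omega) htype h3
  set A := prc n M0 u with hAdef
  have hXA : ∀ X ∈ A, ∑ i, X i ^ 2 = n ∧ gc X = 1 := by
    intro X hX
    rw [hAdef, prc, mem_filter, mem_repsc] at hX
    exact ⟨hX.1.1, hX.2⟩
  -- the cut
  set y : ℕ := ⌊(n : ℝ) ^ (1 / 1000 : ℝ)⌋₊ with hy
  have hpow1 : 1 ≤ (n : ℝ) ^ (1 / 1000 : ℝ) := Real.one_le_rpow hnr (by norm_num)
  have hy1 : 1 ≤ y := Nat.le_floor (by simpa using hpow1)
  have hyle : (y : ℝ) ≤ (n : ℝ) ^ (1 / 1000 : ℝ) := Nat.floor_le (by positivity)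
  have hylt : (n : ℝ) ^ (1 / 1000 : ℝ) ≤ 2 * y := by
    have h1 := Nat.lt_floor_add_one ((n : ℝ) ^ (1 / 1000 : ℝ))
    rw [← hy] at h1
    have h2 : (1 : ℝ) ≤ y := by exact_mod_cast hy1
    linarith
  have hyr : (1 : ℝ) ≤ y := by exact_mod_cast hy1
  have hyn : y ≤ n := by
    have : (y : ℝ) ≤ n := by
      calc (y : ℝ) ≤ (n : ℝ) ^ (1 / 1000 : ℝ) := hyle
        _ ≤ (n : ℝ) ^ (1 : ℝ) := Real.rpow_le_rpow_of_exponent_le hnr (by norm_num)
        _ = n := Real.rpow_one _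
    exact_mod_cast this
  set P : Finset ℕ := (Ioc 52 y).filter Nat.Prime with hP
  have hPp : ∀ p ∈ P, p.Prime ∧ 52 < p ∧ p ≤ y := by
    intro p hp
    rw [hP, Finset.mem_filter, Finset.mem_Ioc] at hp
    exact ⟨hp.2, hp.1.1, hp.1.2⟩
  set B : ℕ → Finset (Fin 4 → ℤ) := fun l => A.filter (fun X => red l X ∈ BB n l) with hB
  set err : ℝ := C * (M0 : ℝ) ^ 11 * (y : ℝ) ^ 15 * (n : ℝ) ^ (19 / 20 : ℝ) with herr
  have hBc : ∀ l ∈ P, ((B l).card : ℝ) ≤ (A.card : ℝ) * (13 * ((l : ℝ) ^ 2)⁻¹) + err := by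
    intro l hl
    obtain ⟨hlp, hl52, hly⟩ := hPp l hl
    have hlM : ¬ l ∣ M0 := by
      intro h
      obtain ⟨l', hl', hll⟩ := (hlp.prime.dvd_finsetProd_iff _).1 h
      have hle : l = l' := (Nat.prime_dvd_prime_iff_eq hlp (T0p l' hl').1).1 hll
      have h1 := (T0p l' hl').2.2
      omega
    have h1 := hdist n M0 hn M0pos M0odd M0sq u hu {l} (by
      intro l' hl'
      rw [mem_singleton] at hl'
      subst hl'
      obtain ⟨c, hc, _⟩ := local_cs l' hlp (by omega) n h3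
      exact ⟨hlp, hlM, by omega, ⟨c, hc⟩⟩) (fun l => BB n l)
      (fun l _ c hc => ((mem_BB n l c).1 hc).1)
    rw [prod_singleton, prod_singleton] at h1
    have h2 : A.filter (fun X => ∀ l' ∈ ({l} : Finset ℕ), red l' X ∈ (fun l => BB n l) l') = B l := by
      rw [hB]
      apply filter_congr
      intro X _
      simp
    rw [← hAdef, h2] at h1
    have h4 := (abs_le.1 h1).2
    have h5 := dens_bound n l hlp hl52
    have hlyr : (l : ℝ) ≤ y := by exact_mod_cast hly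
    have h6 : C * (M0 : ℝ) ^ 11 * (l : ℝ) ^ 15 * (n : ℝ) ^ (19 / 20 : ℝ) ≤ err := by
      rw [herr]; gcongr
    have h7 : (A.card : ℝ) * (((BB n l).card : ℝ) / (Gl n l).card) ≤ (A.card : ℝ) * (13 * ((l : ℝ) ^ 2)⁻¹) := by gcongr
    linarith
  -- sum of the densities
  have hdens : ∑ l ∈ P, 13 * ((l : ℝ) ^ 2)⁻¹ ≤ 1 / 4 := by
    have h1 : ∑ l ∈ P, 13 * ((l : ℝ) ^ 2)⁻¹ ≤ ∑ l ∈ Ioc 52 y, 13 * ((l : ℝ) ^ 2)⁻¹ := by
      apply sum_le_sum_of_subset_of_nonneg (filter_subset _ _)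
      intro l _ _
      positivity
    rw [← mul_sum] at h1
    by_cases h52 : 52 ≤ y
    · have h2 := sum_Ioc_inv_sq_le_sub (α := ℝ) (by norm_num : 52 ≠ 0) h52
      have h3 : (0 : ℝ) ≤ (y : ℝ)⁻¹ := by positivity
      push_cast at h2
      rw [mul_sum] at h1
      calc _ ≤ _ := h1
        _ = 13 * ∑ l ∈ Ioc 52 y, ((l : ℝ) ^ 2)⁻¹ := by rw [mul_sum]
        _ ≤ 13 * ((52 : ℝ)⁻¹ - (y : ℝ)⁻¹) := by gcongr
        _ ≤ _ := by linarith [show (52 : ℝ)⁻¹ = 1 / 52 by norm_num]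
    · rw [Ioc_eq_empty (by omega), sum_empty] at h1
      rw [← mul_sum]
      linarith
  have hPcard : (P.card : ℝ) ≤ y := by
    have : P.card ≤ y := by
      calc P.card ≤ (Ioc 52 y).card := card_filter_le _ _
        _ = y - 52 := by simp
        _ ≤ y := by omega
    exact_mod_cast this
  have hBsum : ((P.biUnion B).card : ℝ) ≤ (A.card : ℝ) / 4 + y * err := by
    have h1 : ((P.biUnion B).card : ℝ) ≤ ∑ l ∈ P, ((B l).card : ℝ) := by exact_mod_cast card_biUnion_le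
    have herr0 : 0 ≤ err := by positivity
    calc ((P.biUnion B).card : ℝ) ≤ ∑ l ∈ P, ((B l).card : ℝ) := h1
      _ ≤ ∑ l ∈ P, ((A.card : ℝ) * (13 * ((l : ℝ) ^ 2)⁻¹) + err) := sum_le_sum hBc
      _ = (A.card : ℝ) * ∑ l ∈ P, 13 * ((l : ℝ) ^ 2)⁻¹ + P.card * err := by
          rw [sum_add_distrib, ← mul_sum, sum_const, nsmul_eq_mul]
      _ ≤ (A.card : ℝ) * (1 / 4) + y * err := by gcongr
      _ = _ := by ring
  -- power bounds
  have hypow : (y : ℝ) ^ 16 ≤ (n : ℝ) ^ (16 / 1000 : ℝ) := by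
    calc (y : ℝ) ^ 16 ≤ ((n : ℝ) ^ (1 / 1000 : ℝ)) ^ 16 := by gcongr
      _ = (n : ℝ) ^ (16 / 1000 : ℝ) := by
        rw [← Real.rpow_natCast, ← Real.rpow_mul hn0.le]
        congr 1
        norm_num
  have hmain0 : 0 < (n : ℝ) ^ (1 - ε / 2) := by positivity
  have hyerr : y * err ≤ c / 8 * (n : ℝ) ^ (1 - ε / 2) := by
    rw [div_le_iff₀ (by positivity)] at hn2'
    have h4 : (n : ℝ) ^ (1 / 100 : ℝ) * ((n : ℝ) ^ (16 / 1000 : ℝ) * (n : ℝ) ^ (19 / 20 : ℝ)) ≤ (n : ℝ) ^ (1 - ε / 2) := by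
      rw [← Real.rpow_add hn0, ← Real.rpow_add hn0]
      apply Real.rpow_le_rpow_of_exponent_le hnr
      linarith
    calc y * err = (C * (M0 : ℝ) ^ 11) * ((y : ℝ) ^ 16 * (n : ℝ) ^ (19 / 20 : ℝ)) := by rw [herr]; ring
      _ ≤ ((n : ℝ) ^ (1 / 100 : ℝ) * (c / 8)) * ((n : ℝ) ^ (16 / 1000 : ℝ) * (n : ℝ) ^ (19 / 20 : ℝ)) := by gcongr
      _ = c / 8 * ((n : ℝ) ^ (1 / 100 : ℝ) * ((n : ℝ) ^ (16 / 1000 : ℝ) * (n : ℝ) ^ (19 / 20 : ℝ))) := by ring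
      _ ≤ _ := by gcongr
  have hLLb : ((LL n y).card : ℝ) ≤ c / 8 * (n : ℝ) ^ (1 - ε / 2) := by
    have h1 := hLL n y hy1 hyn
    rw [div_le_iff₀ (by positivity)] at hn3'
    have hy0 : (0 : ℝ) < y := by linarith
    have h2 : (n : ℝ) ^ (1 + 1 / 4000 : ℝ) / y ≤ 2 * (n : ℝ) ^ (1 - 3 / 4000 : ℝ) := by
      rw [div_le_iff₀ hy0]
      have h5 : (n : ℝ) ^ (1 + 1 / 4000 : ℝ) = (n : ℝ) ^ (1 - 3 / 4000 : ℝ) * (n : ℝ) ^ (1 / 1000 : ℝ) := by
        rw [← Real.rpow_add hn0]; congr 1; norm_num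
      rw [h5]
      have : 0 ≤ (n : ℝ) ^ (1 - 3 / 4000 : ℝ) := by positivity
      nlinarith
    have h6 : (n : ℝ) ^ (1 / 4000 : ℝ) * (n : ℝ) ^ (1 - 3 / 4000 : ℝ) ≤ (n : ℝ) ^ (1 - ε / 2) := by
      rw [← Real.rpow_add hn0]
      apply Real.rpow_le_rpow_of_exponent_le hnr
      linarith
    calc ((LL n y).card : ℝ) ≤ C' * (n : ℝ) ^ (1 + 1 / 4000 : ℝ) / y := h1
      _ = C' * ((n : ℝ) ^ (1 + 1 / 4000 : ℝ) / y) := by ring
      _ ≤ C' * (2 * (n : ℝ) ^ (1 - 3 / 4000 : ℝ)) := by gcongr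
      _ = (2 * C') * (n : ℝ) ^ (1 - 3 / 4000 : ℝ) := by ring
      _ ≤ ((n : ℝ) ^ (1 / 4000 : ℝ) * (c / 8)) * (n : ℝ) ^ (1 - 3 / 4000 : ℝ) := by gcongr
      _ = c / 8 * ((n : ℝ) ^ (1 / 4000 : ℝ) * (n : ℝ) ^ (1 - 3 / 4000 : ℝ)) := by ring
      _ ≤ _ := by gcongr
  -- the good set
  set S : Finset (Fin 4 → ℤ) := A \ (P.biUnion B ∪ LL n y) with hS
  refine ⟨S, ?_, ?_⟩
  · have h1 : A.card ≤ S.card + (P.biUnion B ∪ LL n y).card := by
      rw [hS]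
      exact Finset.card_le_card_sdiff_add_card
    have h2 := card_union_le (P.biUnion B) (LL n y)
    have h4 : (A.card : ℝ) ≤ S.card + ((P.biUnion B).card + (LL n y).card) := by
      have : A.card ≤ S.card + ((P.biUnion B).card + (LL n y).card) := by omega
      exact_mod_cast this
    have h5 : c / 2 * (n : ℝ) ^ (1 - ε / 2) ≤ S.card := by
      linarith
    have h6 : (n : ℝ) ^ (1 - ε) ≤ c / 2 * (n : ℝ) ^ (1 - ε / 2) := by
      rw [div_le_iff₀ (by positivity)] at hn4'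
      have h6 : (n : ℝ) ^ (1 - ε / 2) = (n : ℝ) ^ (ε / 2) * (n : ℝ) ^ (1 - ε) := by
        rw [← Real.rpow_add hn0]; congr 1; ring
      rw [h6]
      calc (n : ℝ) ^ (1 - ε) = 1 * (n : ℝ) ^ (1 - ε) := (one_mul _).symm
        _ ≤ ((n : ℝ) ^ (ε / 2) * (c / 2)) * (n : ℝ) ^ (1 - ε) := by gcongr
        _ = _ := by ring
    linarith
  · intro X hX
    rw [hS, mem_sdiff, mem_union] at hX
    obtain ⟨hXA', hXn⟩ := hX
    push Not at hXn
    obtain ⟨hX1, hX2⟩ := hXn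
    obtain ⟨hsum, hgc⟩ := hXA X hXA'
    refine ⟨hsum, ?_⟩
    intro i j hij
    by_contra hne
    have hLLn : ¬ ((X i = 0 ∧ X j = 0) ∨ y < Int.gcd (X i) (X j)) := by
      intro h
      exact hX2 ((mem_LL n y X).2 ⟨hsum, i, j, hij, h⟩)
    push Not at hLLn
    obtain ⟨hL1, hL2⟩ := hLLn
    obtain ⟨l, hl, hld⟩ := Nat.exists_prime_and_dvd hne
    have hg0 : 0 < Int.gcd (X i) (X j) := by
      apply Nat.pos_of_ne_zero
      intro h0
      rw [Int.gcd_eq_zero_iff] at h0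
      exact hL1 h0.1 h0.2
    have hly : l ≤ y := (Nat.le_of_dvd hg0 hld).trans hL2
    have hi : (l : ℤ) ∣ X i := (Int.natCast_dvd_natCast.2 hld).trans (Int.gcd_dvd_left _ _)
    have hj : (l : ℤ) ∣ X j := (Int.natCast_dvd_natCast.2 hld).trans (Int.gcd_dvd_right _ _)
    by_cases hl2 : l = 2
    · subst hl2
      exact two_even n h8 X hsum hgc i j hij hi hj
    · have hbad := red_BB n l hl X hsum hgc i j hij hi hj
      by_cases hl52 : l ≤ 52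
      · have hlT : l ∈ T0 := by
          rw [T0, mem_filter, mem_Icc]
          have := hl.two_le
          exact ⟨⟨by omega, hl52⟩, hl⟩
        exact hAT X hXA' l hlT hbad
      · apply hX1
        rw [mem_biUnion]
        refine ⟨l, ?_, ?_⟩
        · rw [hP, mem_filter, mem_Ioc]
          exact ⟨⟨by omega, hly⟩, hl⟩
        · rw [hB, mem_filter]
          exact ⟨hXA', hbad⟩

end Pool.Agent.W65.CS
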