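import Pool.Agent.W65.FS.Lower
import Pool.Agent.W65.FS.Local

/-!
# Primitive representations of `4 m`, bad classes for pairwise coprimality
-/

set_option autoImplicit false
open Finset

namespace Pool.Agent.W65.CS

open Pool.Agent.W65.FS

/-- the Hadamard map -/
def had (X : Fin 4 → ℤ) : Fin 4 → ℤ :=
  ![X 0 + X 1 + X 2 + X 3, X 0 + X 1 - X 2 - X 3, X 0 - X 1 + X 2 - X 3, X 0 - X 1 - X 2 + X 3]

lemma parity_sum (x y z w : ℤ) (m : ℕ) (h : x ^ 2 + y ^ 2 + z ^ 2 + w ^ 2 = m) (hm : Odd m) : ¬ (2 : ℤ) ∣ x + y + z + w := by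
  intro h2
  have h1 : ∀ t : ℤ, (2 : ℤ) ∣ t ^ 2 - t := by
    intro t
    have : t ^ 2 - t = t * (t - 1) := by ring
    rw [this]
    rcases Int.even_or_odd t with h | h
    · exact (h.two_dvd).mul_right _
    · obtain ⟨k, hk⟩ := h
      exact Dvd.dvd.mul_left ⟨k, by rw [hk]; ring⟩ _
  have h3 : (2 : ℤ) ∣ (m : ℤ) := by
    rw [← h]
    have : x ^ 2 + y ^ 2 + z ^ 2 + w ^ 2 = (x ^ 2 - x) + (y ^ 2 - y) + (z ^ 2 - z) + (w ^ 2 - w) + (x + y + z + w) := by ring
    rw [this]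
    exact dvd_add (dvd_add (dvd_add (dvd_add (h1 x) (h1 y)) (h1 z)) (h1 w)) h2
  have h4 : 2 ∣ m := by exact_mod_cast h3
  exact (Nat.not_even_iff_odd.2 hm) (even_iff_two_dvd.2 h4)

lemma preps_four (m : ℕ) (hm : Odd m) : (preps m).card ≤ (preps (4 * m)).card := by
  apply Finset.card_le_card_of_injOn had
  · intro X hX
    rw [mem_coe, preps, mem_filter, mem_reps] at hX
    obtain ⟨h1, h2⟩ := hX
    rw [mem_coe, preps, mem_filter, mem_reps]
    have h1' := h1
    rw [Fin.sum_univ_four] at h1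
    refine ⟨?_, ?_⟩
    · rw [Fin.sum_univ_four]
      simp only [had, Matrix.cons_val_zero, Matrix.cons_val_one, Matrix.cons_val]
      push_cast
      rw [← h1]
      ring
    · by_contra hne
      obtain ⟨l, hl, hld⟩ := Nat.exists_prime_and_dvd hne
      have h4 := (dvd_gc l (had X)).1 hld
      have a0 : (l : ℤ) ∣ X 0 + X 1 + X 2 + X 3 := by simpa [had] using h4 0
      have a1 : (l : ℤ) ∣ X 0 + X 1 - X 2 - X 3 := by simpa [had] using h4 1
      have a2 : (l : ℤ) ∣ X 0 - X 1 + X 2 - X 3 := by simpa [had] using h4 2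
      have a3 : (l : ℤ) ∣ X 0 - X 1 - X 2 + X 3 := by simpa [had] using h4 3
      have hl2 : l ≠ 2 := by
        rintro rfl
        exact parity_sum _ _ _ _ m h1 hm a0
      have b0 : (l : ℤ) ∣ X 0 := by
        apply two_cancel l hl hl2
        apply two_cancel l hl hl2
        have := dvd_add (dvd_add a0 a1) (dvd_add a2 a3)
        have e : X 0 + X 1 + X 2 + X 3 + (X 0 + X 1 - X 2 - X 3) + (X 0 - X 1 + X 2 - X 3 + (X 0 - X 1 - X 2 + X 3)) = 2 * (2 * X 0) := by ring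
        rwa [e] at this
      have b1 : (l : ℤ) ∣ X 1 := by
        apply two_cancel l hl hl2
        apply two_cancel l hl hl2
        have := dvd_sub (dvd_add a0 a1) (dvd_add a2 a3)
        have e : X 0 + X 1 + X 2 + X 3 + (X 0 + X 1 - X 2 - X 3) - (X 0 - X 1 + X 2 - X 3 + (X 0 - X 1 - X 2 + X 3)) = 2 * (2 * X 1) := by ring
        rwa [e] at this
      have b2 : (l : ℤ) ∣ X 2 := by
        apply two_cancel l hl hl2
        apply two_cancel l hl hl2
        have := dvd_sub (dvd_add a0 a2) (dvd_add a1 a3)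
        have e : X 0 + X 1 + X 2 + X 3 + (X 0 - X 1 + X 2 - X 3) - (X 0 + X 1 - X 2 - X 3 + (X 0 - X 1 - X 2 + X 3)) = 2 * (2 * X 2) := by ring
        rwa [e] at this
      have b3 : (l : ℤ) ∣ X 3 := by
        apply two_cancel l hl hl2
        apply two_cancel l hl hl2
        have := dvd_sub (dvd_add a0 a3) (dvd_add a1 a2)
        have e : X 0 + X 1 + X 2 + X 3 + (X 0 - X 1 - X 2 + X 3) - (X 0 + X 1 - X 2 - X 3 + (X 0 - X 1 + X 2 - X 3)) = 2 * (2 * X 3) := by ring
        rwa [e] at this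
      have h5 : l ∣ gc X := (dvd_gc l X).2 (by
        intro i
        fin_cases i
        · exact b0
        · exact b1
        · exact b2
        · exact b3)
      rw [h2] at h5
      exact hl.one_lt.ne' (Nat.dvd_one.1 h5)
  · intro X _ Y _ hXY
    have e0 := congrFun hXY 0
    have e1 := congrFun hXY 1
    have e2 := congrFun hXY 2
    have e3 := congrFun hXY 3
    simp only [had, Matrix.cons_val_zero, Matrix.cons_val_one, Matrix.cons_val] at e0 e1 e2 e3
    funext i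
    fin_cases i
    · show X 0 = Y 0
      linarith
    · show X 1 = Y 1
      linarith
    · show X 2 = Y 2
      linarith
    · show X 3 = Y 3
      linarith

/-- lower bound for odd numbers and four times odd numbers -/
theorem preps_lower' (ε : ℝ) (hε : 0 < ε) : ∃ c : ℝ, 0 < c ∧ ∀ n : ℕ, (Odd n ∨ ∃ m, Odd m ∧ n = 4 * m) →
    c * (n : ℝ) ^ (1 - ε) ≤ (preps n).card := by
  obtain ⟨c, hc, h⟩ := preps_lower ε hε
  refine ⟨c / 4, by positivity, ?_⟩
  intro n hn
  rcases hn with hn | ⟨m, hm, rfl⟩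
  · have h1 := h n hn
    have h2 : 0 ≤ c * (n : ℝ) ^ (1 - ε) := by positivity
    calc c / 4 * (n : ℝ) ^ (1 - ε) = (c * (n : ℝ) ^ (1 - ε)) / 4 := by ring
      _ ≤ c * (n : ℝ) ^ (1 - ε) := by linarith
      _ ≤ _ := h1
  · have h1 := h m hm
    have h2 : ((preps m).card : ℝ) ≤ (preps (4 * m)).card := by exact_mod_cast preps_four m hm
    refine le_trans ?_ (h1.trans h2)
    push_cast
    rw [Real.mul_rpow (by norm_num) (by positivity)]
    have h3 : (4 : ℝ) ^ (1 - ε) ≤ 4 := by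
      calc (4 : ℝ) ^ (1 - ε) ≤ (4 : ℝ) ^ (1 : ℝ) := Real.rpow_le_rpow_of_exponent_le (by norm_num) (by linarith)
        _ = 4 := Real.rpow_one _
    calc c / 4 * ((4 : ℝ) ^ (1 - ε) * (m : ℝ) ^ (1 - ε)) ≤ c / 4 * (4 * (m : ℝ) ^ (1 - ε)) := by gcongr
      _ = _ := by ring

/-- bad classes: two coordinates vanish -/
noncomputable def BB (n l : ℕ) : Finset (Fin 4 → ℤ) := by
  classical
  exact (Gl n l).filter (fun c => ∃ i j, i ≠ j ∧ (l : ℤ) ∣ c i ∧ (l : ℤ) ∣ c j)

lemma mem_BB (n l : ℕ) (c : Fin 4 → ℤ) : c ∈ BB n l ↔ c ∈ Gl n l ∧ ∃ i j, i ≠ j ∧ (l : ℤ) ∣ c i ∧ (l : ℤ) ∣ c j := by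
  unfold BB
  rw [Finset.mem_filter]

lemma zero_of_dvd (l : ℕ) (hl : 0 < l) (x : ℤ) (h : 0 ≤ x ∧ x < l) (hd : (l : ℤ) ∣ x) : x = 0 := by
  obtain ⟨k, rfl⟩ := hd
  have hlz : (0 : ℤ) < l := by exact_mod_cast hl
  have h1 : 0 ≤ k := by
    by_contra hk
    push Not at hk
    nlinarith [h.1]
  have h2 : k < 1 := by
    by_contra hk
    push Not at hk
    nlinarith [h.2]
  have : k = 0 := by omega
  rw [this, mul_zero]

lemma pair_bad (l : ℕ) (hl : l.Prime) (n : ℕ) (i j k m : Fin 4)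
    (hsum : ∀ c : Fin 4 → ℤ, ∑ t, c t ^ 2 = c i ^ 2 + c j ^ 2 + c k ^ 2 + c m ^ 2)
    (hext : ∀ c c' : Fin 4 → ℤ, c i = c' i → c j = c' j → c k = c' k → c m = c' m → c = c')
    (hmi : i ≠ m) (hmj : j ≠ m) (hmk : k ≠ m)
    (B : Finset (Fin 4 → ℤ)) (hB : ∀ c ∈ B, c ∈ Gl n l ∧ (l : ℤ) ∣ c i ∧ (l : ℤ) ∣ c j) : B.card ≤ 2 * l := by
  classical
  have hcard : (Finset.Ico (0 : ℤ) l).card = l := by simp
  rw [← hcard]
  conv_rhs => rw [hcard]
  have : 2 * l = 2 * (Finset.Ico (0 : ℤ) l).card := by rw [hcard]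
  rw [this]
  apply Finset.card_le_mul_card_image_of_maps_to (f := fun c : Fin 4 → ℤ => c k)
  · intro c hc
    have h2 := ((mem_Gl n l c).1 (hB c hc).1).1
    rw [Finset.mem_Ico]
    exact h2 k
  · intro r _
    by_cases hne : (B.filter (fun c => c k = r)).Nonempty
    · obtain ⟨d, hd⟩ := hne
      rw [Finset.mem_filter] at hd
      obtain ⟨hdB, hdr⟩ := hd
      obtain ⟨hd1, hd2, hd3⟩ := hB d hdB
      have hd4 := (mem_Gl n l d).1 hd1
      have di := zero_of_dvd l hl.pos _ (hd4.1 i) hd2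
      have dj := zero_of_dvd l hl.pos _ (hd4.1 j) hd3
      have hsub : B.filter (fun c => c k = r) ⊆ {d, Function.update d m ((-d m) % l)} := by
        intro c hc
        rw [Finset.mem_filter] at hc
        obtain ⟨hcB, hcr⟩ := hc
        obtain ⟨hc1, hc2, hc3⟩ := hB c hcB
        have hc4 := (mem_Gl n l c).1 hc1
        have ci := zero_of_dvd l hl.pos _ (hc4.1 i) hc2
        have cj := zero_of_dvd l hl.pos _ (hc4.1 j) hc3
        have g1 : (l : ℤ) ∣ c m ^ 2 - d m ^ 2 := by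
          have := dvd_sub hc4.2.1 hd4.2.1
          rw [hsum c, hsum d, ci, cj, di, dj, hcr, hdr] at this
          have h5 : (0 : ℤ) ^ 2 + 0 ^ 2 + r ^ 2 + c m ^ 2 - (n : ℤ) - (0 ^ 2 + 0 ^ 2 + r ^ 2 + d m ^ 2 - n) =
            c m ^ 2 - d m ^ 2 := by ring
          rwa [h5] at this
        rw [mem_insert, mem_singleton]
        rcases sq_cases l hl (c m) (d m) g1 (hc4.1 m) (hd4.1 m) with h | h
        · left
          exact hext c d (by rw [ci, di]) (by rw [cj, dj]) (by rw [hcr, hdr]) h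
        · right
          apply hext
          · rw [Function.update_of_ne hmi, ci, di]
          · rw [Function.update_of_ne hmj, cj, dj]
          · rw [Function.update_of_ne hmk, hcr, hdr]
          · rw [Function.update_self, h]
      exact (Finset.card_le_card hsub).trans Finset.card_le_two
    · rw [Finset.not_nonempty_iff_eq_empty.1 hne]
      simp

lemma BB_card (l : ℕ) (hl : l.Prime) (n : ℕ) : (BB n l).card ≤ 12 * l := by
  classical
  set F : Fin 4 → Fin 4 → Finset (Fin 4 → ℤ) := fun i j => (Gl n l).filter (fun c => (l : ℤ) ∣ c i ∧ (l : ℤ) ∣ c j) with hF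
  have hsub : BB n l ⊆ F 0 1 ∪ F 0 2 ∪ F 0 3 ∪ F 1 2 ∪ F 1 3 ∪ F 2 3 := by
    intro c hc
    rw [mem_BB] at hc
    obtain ⟨h1, i, j, hij, h2, h3⟩ := hc
    simp only [mem_union, hF, mem_filter]
    fin_cases i <;> fin_cases j <;> simp_all
  have hFc : ∀ i j, (∀ c ∈ F i j, c ∈ Gl n l ∧ (l : ℤ) ∣ c i ∧ (l : ℤ) ∣ c j) := by
    intro i j c hc
    simp only [hF, mem_filter] at hc
    exact ⟨hc.1, hc.2.1, hc.2.2⟩
  have he : ∀ c c' : Fin 4 → ℤ, c 0 = c' 0 → c 1 = c' 1 → c 2 = c' 2 → c 3 = c' 3 → c = c' := by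
    intro c c' h0 h1 h2 h3
    funext t
    fin_cases t
    · exact h0
    · exact h1
    · exact h2
    · exact h3
  have b01 : (F 0 1).card ≤ 2 * l := pair_bad l hl n 0 1 2 3 (fun c => by rw [Fin.sum_univ_four])
    (fun c c' h0 h1 h2 h3 => he c c' h0 h1 h2 h3) (by decide) (by decide) (by decide) _ (hFc 0 1)
  have b02 : (F 0 2).card ≤ 2 * l := pair_bad l hl n 0 2 1 3 (fun c => by rw [Fin.sum_univ_four]; ring)
    (fun c c' h0 h1 h2 h3 => he c c' h0 h2 h1 h3) (by decide) (by decide) (by decide) _ (hFc 0 2)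
  have b03 : (F 0 3).card ≤ 2 * l := pair_bad l hl n 0 3 1 2 (fun c => by rw [Fin.sum_univ_four]; ring)
    (fun c c' h0 h1 h2 h3 => he c c' h0 h2 h3 h1) (by decide) (by decide) (by decide) _ (hFc 0 3)
  have b12 : (F 1 2).card ≤ 2 * l := pair_bad l hl n 1 2 0 3 (fun c => by rw [Fin.sum_univ_four]; ring)
    (fun c c' h0 h1 h2 h3 => he c c' h2 h0 h1 h3) (by decide) (by decide) (by decide) _ (hFc 1 2)
  have b13 : (F 1 3).card ≤ 2 * l := pair_bad l hl n 1 3 0 2 (fun c => by rw [Fin.sum_univ_four]; ring)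
    (fun c c' h0 h1 h2 h3 => he c c' h2 h0 h3 h1) (by decide) (by decide) (by decide) _ (hFc 1 3)
  have b23 : (F 2 3).card ≤ 2 * l := pair_bad l hl n 2 3 0 1 (fun c => by rw [Fin.sum_univ_four]; ring)
    (fun c c' h0 h1 h2 h3 => he c c' h2 h3 h0 h1) (by decide) (by decide) (by decide) _ (hFc 2 3)
  calc (BB n l).card ≤ _ := card_le_card hsub
    _ ≤ (F 0 1 ∪ F 0 2 ∪ F 0 3 ∪ F 1 2 ∪ F 1 3).card + (F 2 3).card := card_union_le _ _
    _ ≤ ((F 0 1 ∪ F 0 2 ∪ F 0 3 ∪ F 1 2).card + (F 1 3).card) + (F 2 3).card := by gcongr; exact card_union_le _ _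
    _ ≤ (((F 0 1 ∪ F 0 2 ∪ F 0 3).card + (F 1 2).card) + (F 1 3).card) + (F 2 3).card := by gcongr; exact card_union_le _ _
    _ ≤ ((((F 0 1 ∪ F 0 2).card + (F 0 3).card) + (F 1 2).card) + (F 1 3).card) + (F 2 3).card := by gcongr; exact card_union_le _ _
    _ ≤ (((((F 0 1).card + (F 0 2).card) + (F 0 3).card) + (F 1 2).card) + (F 1 3).card) + (F 2 3).card := by gcongr; exact card_union_le _ _
    _ ≤ 12 * l := by omega

lemma local_cs (l : ℕ) (hl : l.Prime) (hl2 : l ≠ 2) (n : ℕ) (hn3 : n % 3 ≠ 2) : ∃ c ∈ Gl n l, c ∉ BB n l := by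
  classical
  by_cases hbig : 5 ≤ l
  · by_contra h
    push Not at h
    have h1 : Gl n l ⊆ BB n l := fun c hc => h c hc
    have h2 := (Finset.card_le_card h1).trans (BB_card l hl n)
    have h3 := count_lower l hl hl2 n
    have h4 : ((Gl n l).card : ℝ) ≤ 12 * (l : ℝ) := by exact_mod_cast h2
    have h5 : (5 : ℝ) ≤ l := by exact_mod_cast hbig
    have h6 : (25 : ℝ) ≤ (l : ℝ) ^ 2 := by nlinarith
    have h7 : 25 * (l : ℝ) ≤ (l : ℝ) ^ 3 := by
      calc 25 * (l : ℝ) ≤ (l : ℝ) ^ 2 * l := by gcongr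
        _ = _ := by ring
    linarith
  · have hl3 : l = 3 := by
      have := hl.two_le
      have h11 : l < 5 := by omega
      interval_cases l
      · omega
      · rfl
      · exfalso; revert hl; decide
    subst hl3
    have hcase : n % 3 = 0 ∨ n % 3 = 1 := by omega
    rcases hcase with h | h
    · refine ⟨![1, 1, 1, 0], ?_, ?_⟩
      · rw [mem_Gl]
        refine ⟨?_, ?_, ⟨0, by simp⟩⟩
        · intro i
          fin_cases i <;> simp
        · rw [Fin.sum_univ_four]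
          simp only [Matrix.cons_val_zero, Matrix.cons_val_one, Matrix.cons_val]
          omega
      · rw [mem_BB]
        rintro ⟨_, i, j, hij, h1, h2⟩
        fin_cases i <;> fin_cases j <;> simp at hij h1 h2 <;> omega
    · refine ⟨![1, 1, 1, 1], ?_, ?_⟩
      · rw [mem_Gl]
        refine ⟨?_, ?_, ⟨0, by simp⟩⟩
        · intro i
          fin_cases i <;> simp
        · rw [Fin.sum_univ_four]
          simp only [Matrix.cons_val_zero, Matrix.cons_val_one, Matrix.cons_val]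
          omega
      · rw [mem_BB]
        rintro ⟨_, i, j, hij, h1, h2⟩
        fin_cases i <;> simp at h1 <;> omega

end Pool.Agent.W65.CS
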