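import Pool.Agent.W65.CS.R2
import Pool.Agent.W65.CS.Low

/-!
# Few representations with a pair of coordinates having a large common factor
-/

set_option autoImplicit false
open Finset

namespace Pool.Agent.W65.CS

open Pool.Agent.W65.FS

/-- pairs with large gcd in a disc -/
noncomputable def QQ (n y : ℕ) : Finset (ℤ × ℤ) :=
  ((Icc (-(n : ℤ)) n) ×ˢ (Icc (-(n : ℤ)) n)).filter (fun p => p.1 ^ 2 + p.2 ^ 2 ≤ n ∧ ((p.1 = 0 ∧ p.2 = 0) ∨ y < Int.gcd p.1 p.2))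

lemma abs_le_of_sq_le (m : ℕ) (x y : ℤ) (h : x ^ 2 + y ^ 2 ≤ m) : -(m : ℤ) ≤ x ∧ x ≤ m := by
  constructor <;> nlinarith [sq_nonneg y, sq_nonneg (x - 1), sq_nonneg (x + 1), sq_nonneg x]

lemma mem_QQ (n y : ℕ) (a b : ℤ) : (a, b) ∈ QQ n y ↔ a ^ 2 + b ^ 2 ≤ n ∧ ((a = 0 ∧ b = 0) ∨ y < Int.gcd a b) := by
  unfold QQ
  rw [mem_filter, mem_product, mem_Icc, mem_Icc]
  constructor
  · exact fun h => h.2
  · intro h
    exact ⟨⟨abs_le_of_sq_le n a b h.1, abs_le_of_sq_le n b a (by rw [add_comm]; exact h.1)⟩, h⟩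

lemma natAbs_le_sqrt (n : ℕ) (a b : ℤ) (h : a ^ 2 + b ^ 2 ≤ n) : a.natAbs ≤ Nat.sqrt n := by
  rw [Nat.le_sqrt]
  have h1 : ((a.natAbs * a.natAbs : ℕ) : ℤ) = a ^ 2 := by
    push_cast
    rw [← Int.natCast_natAbs]
    have := Int.natAbs_mul_self' a
    nlinarith
  have h2 : ((a.natAbs * a.natAbs : ℕ) : ℤ) ≤ n := by
    rw [h1]; nlinarith [sq_nonneg b]
  exact_mod_cast h2

lemma QQ_card (n y : ℕ) (hy : 1 ≤ y) : ((QQ n y).card : ℝ) ≤ 1 + 9 * (n : ℝ) / y := by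
  classical
  set s := Nat.sqrt n with hs
  have hsn : (s : ℝ) ^ 2 ≤ n := by
    have : s * s ≤ n := Nat.sqrt_le n
    have h : ((s * s : ℕ) : ℝ) ≤ n := by exact_mod_cast this
    push_cast at h
    nlinarith
  set G : ℕ → Finset (ℤ × ℤ) := fun g => ((Icc (-((s / g : ℕ) : ℤ)) ((s / g : ℕ) : ℤ)) ×ˢ (Icc (-((s / g : ℕ) : ℤ)) ((s / g : ℕ) : ℤ))).image
    (fun p : ℤ × ℤ => ((g : ℤ) * p.1, (g : ℤ) * p.2)) with hG
  have hsub : QQ n y ⊆ {(0, 0)} ∪ (Ioc y s).biUnion G := by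
    rintro ⟨a, b⟩ hp
    rw [mem_QQ] at hp
    obtain ⟨h1, h2⟩ := hp
    rw [mem_union]
    by_cases h0 : a = 0 ∧ b = 0
    · left; simp [h0.1, h0.2]
    · right
      have h3 : y < Int.gcd a b := by tauto
      set g := Int.gcd a b with hg
      have ea : (g : ℤ) ∣ a := Int.gcd_dvd_left _ _
      have eb : (g : ℤ) ∣ b := Int.gcd_dvd_right _ _
      have hA := natAbs_le_sqrt n a b h1
      have hB := natAbs_le_sqrt n b a (by rw [add_comm]; exact h1)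
      have hg0 : 0 < g := by omega
      obtain ⟨a', ha'⟩ := ea
      obtain ⟨b', hb'⟩ := eb
      have hgs : g ≤ s := by
        by_cases ha0 : a = 0
        · have hb0 : b ≠ 0 := fun h => h0 ⟨ha0, h⟩
          have : g ∣ b.natAbs := Int.natCast_dvd.1 ⟨b', hb'⟩
          exact (Nat.le_of_dvd (Int.natAbs_pos.2 hb0) this).trans hB
        · have : g ∣ a.natAbs := Int.natCast_dvd.1 ⟨a', ha'⟩
          exact (Nat.le_of_dvd (Int.natAbs_pos.2 ha0) this).trans hA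
      rw [mem_biUnion]
      refine ⟨g, mem_Ioc.2 ⟨h3, hgs⟩, ?_⟩
      rw [hG]
      simp only [mem_image, mem_product, mem_Icc, Prod.exists]
      have bd : ∀ c c' : ℤ, c = g * c' → c.natAbs ≤ s → -((s / g : ℕ) : ℤ) ≤ c' ∧ c' ≤ ((s / g : ℕ) : ℤ) := by
        intro c c' hc hcs
        rw [hc, Int.natAbs_mul, Int.natAbs_natCast] at hcs
        have h4 : c'.natAbs ≤ s / g := by
          rw [Nat.le_div_iff_mul_le hg0, mul_comm]
          exact hcs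
        omega
      exact ⟨a', b', ⟨bd a a' ha' hA, bd b b' hb' hB⟩, by rw [← ha', ← hb']⟩
  have hGc : ∀ g ∈ Ioc y s, ((G g).card : ℝ) ≤ 9 * (n : ℝ) * ((g : ℝ) ^ 2)⁻¹ := by
    intro g hg
    rw [mem_Ioc] at hg
    have hg0 : 0 < g := by omega
    have h1 : (G g).card ≤ (2 * (s / g) + 1) * (2 * (s / g) + 1) := by
      refine card_image_le.trans ?_
      rw [card_product]
      simp only [Int.card_Icc]
      have : ((((s / g : ℕ) : ℤ) + 1 - -((s / g : ℕ) : ℤ)).toNat) = 2 * (s / g) + 1 := by omega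
      rw [this]
    have h2 : 1 ≤ s / g := (Nat.one_le_div_iff hg0).2 hg.2
    have h3 : (((s / g : ℕ)) : ℝ) ≤ (s : ℝ) / g := Nat.cast_div_le
    have h4 : ((G g).card : ℝ) ≤ (2 * ((s / g : ℕ) : ℝ) + 1) * (2 * ((s / g : ℕ) : ℝ) + 1) := by exact_mod_cast h1
    have h5 : (1 : ℝ) ≤ ((s / g : ℕ) : ℝ) := by exact_mod_cast h2
    have hgr : (0 : ℝ) < g := by exact_mod_cast hg0
    calc ((G g).card : ℝ) ≤ (2 * ((s / g : ℕ) : ℝ) + 1) * (2 * ((s / g : ℕ) : ℝ) + 1) := h4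
      _ ≤ (3 * ((s / g : ℕ) : ℝ)) * (3 * ((s / g : ℕ) : ℝ)) := by
          apply mul_le_mul <;> linarith
      _ ≤ (3 * ((s : ℝ) / g)) * (3 * ((s : ℝ) / g)) := by gcongr
      _ = 9 * (s : ℝ) ^ 2 * ((g : ℝ) ^ 2)⁻¹ := by field_simp; ring
      _ ≤ _ := by gcongr
  have hsum : ∑ g ∈ Ioc y s, ((g : ℝ) ^ 2)⁻¹ ≤ 1 / (y : ℝ) := by
    by_cases hys : y ≤ s
    · have := sum_Ioc_inv_sq_le_sub (α := ℝ) (by omega : y ≠ 0) hys
      have h2 : (0 : ℝ) ≤ (s : ℝ)⁻¹ := by positivity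
      rw [one_div]
      linarith
    · rw [Ioc_eq_empty (by omega), sum_empty]
      positivity
  have h1 : ((QQ n y).card : ℝ) ≤ 1 + ∑ g ∈ Ioc y s, ((G g).card : ℝ) := by
    have h2 := (card_le_card hsub).trans (card_union_le _ _)
    rw [card_singleton] at h2
    have h3 : ((Ioc y s).biUnion G).card ≤ ∑ g ∈ Ioc y s, (G g).card := card_biUnion_le
    have h4 : (QQ n y).card ≤ 1 + ∑ g ∈ Ioc y s, (G g).card := h2.trans (by gcongr)
    exact_mod_cast h4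
  calc ((QQ n y).card : ℝ) ≤ 1 + ∑ g ∈ Ioc y s, ((G g).card : ℝ) := h1
    _ ≤ 1 + ∑ g ∈ Ioc y s, 9 * (n : ℝ) * ((g : ℝ) ^ 2)⁻¹ := by gcongr with g hg; exact hGc g hg
    _ = 1 + 9 * (n : ℝ) * ∑ g ∈ Ioc y s, ((g : ℝ) ^ 2)⁻¹ := by rw [mul_sum]
    _ ≤ 1 + 9 * (n : ℝ) * (1 / y) := by gcongr
    _ = _ := by ring

/-- representations with a pair having a large common factor -/
noncomputable def LL (n y : ℕ) : Finset (Fin 4 → ℤ) := by
  classical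
  exact (reps n).filter (fun X => ∃ i j, i ≠ j ∧ ((X i = 0 ∧ X j = 0) ∨ y < Int.gcd (X i) (X j)))

lemma mem_LL (n y : ℕ) (X : Fin 4 → ℤ) : X ∈ LL n y ↔ ∑ i, X i ^ 2 = n ∧
    ∃ i j, i ≠ j ∧ ((X i = 0 ∧ X j = 0) ∨ y < Int.gcd (X i) (X j)) := by
  unfold LL
  rw [mem_filter, mem_reps]

lemma pair_large (n y : ℕ) (i j k m : Fin 4)
    (hsum : ∀ c : Fin 4 → ℤ, ∑ t, c t ^ 2 = c i ^ 2 + c j ^ 2 + c k ^ 2 + c m ^ 2)
    (hext : ∀ c c' : Fin 4 → ℤ, c i = c' i → c j = c' j → c k = c' k → c m = c' m → c = c')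
    (K : ℕ) (hK : ∀ r : ℕ, r ≤ n → (R2 r).card ≤ K)
    (B : Finset (Fin 4 → ℤ)) (hB : ∀ c ∈ B, ∑ t, c t ^ 2 = n ∧ ((c i = 0 ∧ c j = 0) ∨ y < Int.gcd (c i) (c j))) :
    B.card ≤ K * (QQ n y).card := by
  classical
  apply Finset.card_le_mul_card_image_of_maps_to (f := fun c : Fin 4 → ℤ => (c i, c j))
  · intro c hc
    obtain ⟨h1, h2⟩ := hB c hc
    rw [mem_QQ]
    refine ⟨?_, h2⟩
    rw [hsum] at h1
    nlinarith [sq_nonneg (c k), sq_nonneg (c m)]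
  · rintro ⟨a, b⟩ hab
    rw [mem_QQ] at hab
    have h0 : 0 ≤ (n : ℤ) - (a ^ 2 + b ^ 2) := by linarith [hab.1]
    obtain ⟨r, hr⟩ := Int.eq_ofNat_of_zero_le h0
    have hrn : r ≤ n := by
      have : (r : ℤ) ≤ n := by
        have h1 : (r : ℤ) = n - (a ^ 2 + b ^ 2) := hr.symm
        nlinarith [sq_nonneg a, sq_nonneg b]
      exact_mod_cast this
    refine le_trans ?_ (hK r hrn)
    apply Finset.card_le_card_of_injOn (fun c => (c k, c m))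
    · intro c hc
      rw [mem_coe, mem_filter] at hc
      obtain ⟨h1, h2⟩ := hc
      have h3 := (hB c h1).1
      rw [hsum] at h3
      simp only [Prod.mk.injEq] at h2
      rw [h2.1, h2.2] at h3
      rw [mem_coe, mem_R2]
      have h1 : (r : ℤ) = n - (a ^ 2 + b ^ 2) := hr.symm
      linarith
    · intro c hc c' hc' hcc
      rw [mem_coe, mem_filter] at hc hc'
      simp only [Prod.mk.injEq] at hcc hc hc'
      exact hext c c' (by rw [hc.2.1, hc'.2.1]) (by rw [hc.2.2, hc'.2.2]) hcc.1 hcc.2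

lemma LL_card (n y K : ℕ) (hK : ∀ r : ℕ, r ≤ n → (R2 r).card ≤ K) : (LL n y).card ≤ 6 * (K * (QQ n y).card) := by
  classical
  set F : Fin 4 → Fin 4 → Finset (Fin 4 → ℤ) := fun i j =>
    (reps n).filter (fun c => (c i = 0 ∧ c j = 0) ∨ y < Int.gcd (c i) (c j)) with hF
  have hFm : ∀ i j c, c ∈ F i j ↔ ∑ t, c t ^ 2 = n ∧ ((c i = 0 ∧ c j = 0) ∨ y < Int.gcd (c i) (c j)) := by
    intro i j c
    simp only [hF, mem_filter, mem_reps]
  have hsymm : ∀ i j c, c ∈ F i j → c ∈ F j i := by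
    intro i j c hc
    rw [hFm] at hc ⊢
    refine ⟨hc.1, ?_⟩
    rcases hc.2 with h | h
    · exact Or.inl ⟨h.2, h.1⟩
    · right; rw [Int.gcd_comm]; exact h
  have hsub : LL n y ⊆ F 0 1 ∪ F 0 2 ∪ F 0 3 ∪ F 1 2 ∪ F 1 3 ∪ F 2 3 := by
    intro c hc
    rw [mem_LL] at hc
    obtain ⟨h1, i, j, hij, h2⟩ := hc
    have h3 : c ∈ F i j := (hFm i j c).2 ⟨h1, h2⟩
    have h4 := hsymm i j c h3
    clear_value F
    simp only [mem_union]
    have hcase : ∀ i j : Fin 4, i ≠ j → (i = 0 ∧ j = 1) ∨ (i = 0 ∧ j = 2) ∨ (i = 0 ∧ j = 3) ∨ (i = 1 ∧ j = 2) ∨ (i = 1 ∧ j = 3) ∨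
      (i = 2 ∧ j = 3) ∨ (i = 1 ∧ j = 0) ∨ (i = 2 ∧ j = 0) ∨ (i = 3 ∧ j = 0) ∨ (i = 2 ∧ j = 1) ∨ (i = 3 ∧ j = 1) ∨ (i = 3 ∧ j = 2) := by decide
    rcases hcase i j hij with ⟨rfl, rfl⟩ | ⟨rfl, rfl⟩ | ⟨rfl, rfl⟩ | ⟨rfl, rfl⟩ | ⟨rfl, rfl⟩ | ⟨rfl, rfl⟩ |
      ⟨rfl, rfl⟩ | ⟨rfl, rfl⟩ | ⟨rfl, rfl⟩ | ⟨rfl, rfl⟩ | ⟨rfl, rfl⟩ | ⟨rfl, rfl⟩
    · exact Or.inl (Or.inl (Or.inl (Or.inl (Or.inl h3))))
    · exact Or.inl (Or.inl (Or.inl (Or.inl (Or.inr h3))))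
    · exact Or.inl (Or.inl (Or.inl (Or.inr h3)))
    · exact Or.inl (Or.inl (Or.inr h3))
    · exact Or.inl (Or.inr h3)
    · exact Or.inr h3
    · exact Or.inl (Or.inl (Or.inl (Or.inl (Or.inl h4))))
    · exact Or.inl (Or.inl (Or.inl (Or.inl (Or.inr h4))))
    · exact Or.inl (Or.inl (Or.inl (Or.inr h4)))
    · exact Or.inl (Or.inl (Or.inr h4))
    · exact Or.inl (Or.inr h4)
    · exact Or.inr h4
  have he : ∀ c c' : Fin 4 → ℤ, c 0 = c' 0 → c 1 = c' 1 → c 2 = c' 2 → c 3 = c' 3 → c = c' := by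
    intro c c' h0 h1 h2 h3
    funext t
    fin_cases t
    · exact h0
    · exact h1
    · exact h2
    · exact h3
  have hFc : ∀ i j, ∀ c ∈ F i j, ∑ t, c t ^ 2 = n ∧ ((c i = 0 ∧ c j = 0) ∨ y < Int.gcd (c i) (c j)) :=
    fun i j c hc => (hFm i j c).1 hc
  have b01 : (F 0 1).card ≤ K * (QQ n y).card := pair_large n y 0 1 2 3 (fun c => by rw [Fin.sum_univ_four])
    (fun c c' h0 h1 h2 h3 => he c c' h0 h1 h2 h3) K hK _ (hFc 0 1)
  have b02 : (F 0 2).card ≤ K * (QQ n y).card := pair_large n y 0 2 1 3 (fun c => by rw [Fin.sum_univ_four]; ring)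
    (fun c c' h0 h1 h2 h3 => he c c' h0 h2 h1 h3) K hK _ (hFc 0 2)
  have b03 : (F 0 3).card ≤ K * (QQ n y).card := pair_large n y 0 3 1 2 (fun c => by rw [Fin.sum_univ_four]; ring)
    (fun c c' h0 h1 h2 h3 => he c c' h0 h2 h3 h1) K hK _ (hFc 0 3)
  have b12 : (F 1 2).card ≤ K * (QQ n y).card := pair_large n y 1 2 0 3 (fun c => by rw [Fin.sum_univ_four]; ring)
    (fun c c' h0 h1 h2 h3 => he c c' h2 h0 h1 h3) K hK _ (hFc 1 2)
  have b13 : (F 1 3).card ≤ K * (QQ n y).card := pair_large n y 1 3 0 2 (fun c => by rw [Fin.sum_univ_four]; ring)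
    (fun c c' h0 h1 h2 h3 => he c c' h2 h0 h3 h1) K hK _ (hFc 1 3)
  have b23 : (F 2 3).card ≤ K * (QQ n y).card := pair_large n y 2 3 0 1 (fun c => by rw [Fin.sum_univ_four]; ring)
    (fun c c' h0 h1 h2 h3 => he c c' h2 h3 h0 h1) K hK _ (hFc 2 3)
  calc (LL n y).card ≤ _ := card_le_card hsub
    _ ≤ (F 0 1 ∪ F 0 2 ∪ F 0 3 ∪ F 1 2 ∪ F 1 3).card + (F 2 3).card := card_union_le _ _
    _ ≤ ((F 0 1 ∪ F 0 2 ∪ F 0 3 ∪ F 1 2).card + (F 1 3).card) + (F 2 3).card := by gcongr; exact card_union_le _ _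
    _ ≤ (((F 0 1 ∪ F 0 2 ∪ F 0 3).card + (F 1 2).card) + (F 1 3).card) + (F 2 3).card := by gcongr; exact card_union_le _ _
    _ ≤ ((((F 0 1 ∪ F 0 2).card + (F 0 3).card) + (F 1 2).card) + (F 1 3).card) + (F 2 3).card := by gcongr; exact card_union_le _ _
    _ ≤ (((((F 0 1).card + (F 0 2).card) + (F 0 3).card) + (F 1 2).card) + (F 1 3).card) + (F 2 3).card := by gcongr; exact card_union_le _ _
    _ ≤ 6 * (K * (QQ n y).card) := by omega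

/-- **few representations with a large common factor** -/
theorem LL_bound (ε : ℝ) (hε : 0 < ε) : ∃ C : ℝ, 0 < C ∧ ∀ n y : ℕ, 1 ≤ y → y ≤ n →
    ((LL n y).card : ℝ) ≤ C * (n : ℝ) ^ (1 + ε) / y := by
  obtain ⟨C, hC, h⟩ := R2_bound ε hε
  refine ⟨120 * C, by positivity, ?_⟩
  intro n y hy hyn
  have hn : 1 ≤ n := by omega
  have hnr : (1 : ℝ) ≤ n := by exact_mod_cast hn
  have hn0 : (0 : ℝ) < n := by linarith
  have hpow : 1 ≤ (n : ℝ) ^ ε := Real.one_le_rpow hnr hε.le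
  set K := ⌊C * (n : ℝ) ^ ε⌋₊ with hK
  have hKr : (K : ℝ) ≤ C * (n : ℝ) ^ ε := Nat.floor_le (by positivity)
  have h1 := LL_card n y K (fun r hr => Nat.le_floor (h r n hr hn))
  have h2 := QQ_card n y hy
  have hyr : (1 : ℝ) ≤ y := by exact_mod_cast hy
  have hy0 : (0 : ℝ) < y := by linarith
  have h3 : ((QQ n y).card : ℝ) ≤ 10 * (n : ℝ) / y := by
    have : (1 : ℝ) ≤ n / y := by
      rw [le_div_iff₀ hy0, one_mul]
      exact_mod_cast hyn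
    calc ((QQ n y).card : ℝ) ≤ 1 + 9 * (n : ℝ) / y := h2
      _ ≤ n / y + 9 * (n : ℝ) / y := by linarith
      _ = _ := by ring
  have h4 : ((LL n y).card : ℝ) ≤ 6 * (K * (QQ n y).card) := by exact_mod_cast h1
  calc ((LL n y).card : ℝ) ≤ 6 * (K * (QQ n y).card) := h4
    _ ≤ 6 * ((C * (n : ℝ) ^ ε) * (10 * (n : ℝ) / y)) := by gcongr
    _ = 60 * C * ((n : ℝ) ^ ε * n) / y := by ring
    _ = 60 * C * (n : ℝ) ^ (1 + ε) / y := by
        rw [add_comm 1 ε, Real.rpow_add hn0, Real.rpow_one]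
    _ ≤ _ := by
        gcongr
        norm_num

end Pool.Agent.W65.CS
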