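import Pool.Agent.W65.CS.Large
import Pool.Agent.W65.FS.Dist

/-!
# Sums of four pairwise coprime squares
-/

set_option autoImplicit false
open Finset

namespace Pool.Agent.W65.CS

open Pool.Agent.W65.FS

lemma large_rpow (K s : ℝ) (hs : 0 < s) : ∃ n0 : ℕ, ∀ n : ℕ, n0 ≤ n → K ≤ (n : ℝ) ^ s := by
  have h1 := (tendsto_rpow_atTop hs).comp tendsto_natCast_atTop_atTop
  have h2 := h1.eventually_ge_atTop K
  rw [Filter.eventually_atTop] at h2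
  obtain ⟨n0, h⟩ := h2
  exact ⟨n0, fun n hn => h n hn⟩

lemma prc_one (n : ℕ) : prc n 1 0 = preps n := by
  unfold prc preps repsc
  congr 1
  apply Finset.filter_true_of_mem
  intro X _ i
  simp

lemma good_one (n : ℕ) : Good n 1 0 := by
  refine ⟨by simp, ?_⟩
  intro l hl h
  exact absurd (Nat.dvd_one.1 h) hl.one_lt.ne'

/-- small primes -/
def T0 : Finset ℕ := (Icc 3 52).filter Nat.Prime

def M0 : ℕ := ∏ l ∈ T0, l

lemma T0p : ∀ l ∈ T0, l.Prime ∧ l ≠ 2 ∧ l ≤ 52 := by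
  intro l hl
  rw [T0, Finset.mem_filter, Finset.mem_Icc] at hl
  exact ⟨hl.2, by omega, hl.1.2⟩

lemma M0pos : 0 < M0 := Finset.prod_pos fun l hl => (T0p l hl).1.pos

lemma M0odd : Odd M0 := by
  unfold M0
  apply Finset.prod_induction _ Odd (fun a b ha hb => ha.mul hb) odd_one
  intro l hl
  exact (T0p l hl).1.odd_of_ne_two (T0p l hl).2.1

lemma M0sq : Squarefree M0 := by
  unfold M0
  apply Finset.squarefree_prod_of_pairwise_isCoprime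
  · intro a ha b hb hab
    rw [Function.onFun, ← Nat.coprime_iff_isRelPrime, Nat.coprime_primes (T0p a ha).1 (T0p b hb).1]
    exact hab
  · intro l hl
    exact (T0p l hl).1.squarefree

/-- the class modulo the small primes carries many representations -/
lemma mass (ε : ℝ) (hε : 0 < ε) (hε1 : ε ≤ 1 / 100) : ∃ c : ℝ, 0 < c ∧ ∃ n0 : ℕ, ∀ n : ℕ, n0 ≤ n →
    (Odd n ∨ ∃ m, Odd m ∧ n = 4 * m) → n % 3 ≠ 2 → ∃ u : Fin 4 → ℤ, Good n M0 u ∧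
      c * (n : ℝ) ^ (1 - ε) ≤ ((prc n M0 u).card : ℝ) ∧ ∀ X ∈ prc n M0 u, ∀ l ∈ T0, red l X ∉ BB n l := by
  classical
  obtain ⟨C, hC, hdist⟩ := distribution
  obtain ⟨c1, hc1, hlow⟩ := preps_lower' ε hε
  have hM0r : (1 : ℝ) ≤ M0 := by exact_mod_cast M0pos
  set c2 : ℝ := c1 / (2 * (M0 : ℝ) ^ 4) with hc2
  have hc2pos : 0 < c2 := by positivity
  obtain ⟨n1, hn1⟩ := large_rpow (C * (M0 : ℝ) ^ 15 / c2) (1 / 25) (by norm_num)
  refine ⟨c2, hc2pos, n1 + 1, ?_⟩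
  intro n hnbig htype hn3
  have hn : 1 ≤ n := by omega
  have hnr : (1 : ℝ) ≤ n := by exact_mod_cast hn
  have hn0 : (0 : ℝ) < n := by linarith
  have hn1' := hn1 n (by omega)
  have hex : ∀ l : ℕ, ∃ c : Fin 4 → ℤ, l ∈ T0 → (c ∈ Gl n l ∧ c ∉ BB n l) := by
    intro l
    by_cases hl : l ∈ T0
    · obtain ⟨c, hc⟩ := local_cs l (T0p l hl).1 (T0p l hl).2.1 n hn3
      exact ⟨c, fun _ => hc⟩
    · exact ⟨0, fun h => absurd h hl⟩
  choose cc hcc using hex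
  set ccp : (l : ℕ) → l ∈ T0 → (Fin 4 → ℤ) := fun l _ => cc l with hccp
  have hccmem : ccp ∈ T0.pi (fun l => Gl n l) := by
    rw [Finset.mem_pi]
    intro l hl
    exact (hcc l hl).1
  have hT0cop : ∀ l ∈ T0, l.Prime ∧ ¬ l ∣ 1 := fun l hl =>
    ⟨(T0p l hl).1, fun h => (T0p l hl).1.one_lt.ne' (Nat.dvd_one.1 h)⟩
  obtain ⟨u, hu, hNu⟩ := Nc_eq n 1 one_pos 0 (good_one n) T0 hT0cop ccp hccmem
  have hM01 : 1 * ∏ l ∈ T0, l = M0 := by rw [one_mul]; rfl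
  rw [hM01] at hu hNu
  refine ⟨u, hu, ?_, ?_⟩
  · have h1 := hdist n 1 hn one_pos odd_one squarefree_one 0 (good_one n) T0
      (fun l hl => ⟨(T0p l hl).1, (hT0cop l hl).2, (T0p l hl).2.1, ⟨cc l, (hcc l hl).1⟩⟩)
      (fun l => if l ∈ T0 then {cc l} else ∅)
      (fun l hl => by
        rw [if_pos hl]
        exact Finset.singleton_subset_iff.2 (hcc l hl).1)
    have h2 : (prc n 1 0).filter (fun X => ∀ l ∈ T0, red l X ∈ (fun l => if l ∈ T0 then ({cc l} : Finset (Fin 4 → ℤ)) else ∅) l) =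
        prc n M0 u := by
      rw [← hNu]
      unfold Nc
      apply Finset.filter_congr
      intro X _
      constructor
      · intro h l hl
        have := h l hl
        simp only [if_pos hl, Finset.mem_singleton] at this
        exact this
      · intro h l hl
        simp only [if_pos hl, Finset.mem_singleton]
        exact h l hl
    rw [h2, prc_one] at h1
    have h3 : ∏ l ∈ T0, ((((if l ∈ T0 then ({cc l} : Finset (Fin 4 → ℤ)) else ∅).card : ℕ) : ℝ) / (Gl n l).card) ≥ 1 / (M0 : ℝ) ^ 4 := by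
      have h4 : ∏ l ∈ T0, ((((if l ∈ T0 then ({cc l} : Finset (Fin 4 → ℤ)) else ∅).card : ℕ) : ℝ) / (Gl n l).card) =
          1 / ∏ l ∈ T0, ((Gl n l).card : ℝ) := by
        rw [one_div, ← Finset.prod_inv_distrib]
        apply Finset.prod_congr rfl
        intro l hl
        rw [if_pos hl, Finset.card_singleton]
        simp
      rw [h4]
      have h5 : ∏ l ∈ T0, ((Gl n l).card : ℝ) ≤ (M0 : ℝ) ^ 4 := by
        rw [M0]
        push_cast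
        rw [← Finset.prod_pow]
        apply Finset.prod_le_prod
        · intro l _; positivity
        · intro l _
          exact_mod_cast card_Gl_le n l
      have h6 : 0 < ∏ l ∈ T0, ((Gl n l).card : ℝ) := by
        apply Finset.prod_pos
        intro l hl
        exact_mod_cast Finset.card_pos.2 ⟨cc l, (hcc l hl).1⟩
      exact one_div_le_one_div_of_le h6 h5
    have h4 := (abs_le.1 h1).1
    have h5 := hlow n htype
    have h6 : c1 * (n : ℝ) ^ (1 - ε) / (M0 : ℝ) ^ 4 ≤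
        ((preps n).card : ℝ) * ∏ l ∈ T0, ((((if l ∈ T0 then ({cc l} : Finset (Fin 4 → ℤ)) else ∅).card : ℕ) : ℝ) / (Gl n l).card) := by
      calc c1 * (n : ℝ) ^ (1 - ε) / (M0 : ℝ) ^ 4 = (c1 * (n : ℝ) ^ (1 - ε)) * (1 / (M0 : ℝ) ^ 4) := by ring
        _ ≤ _ := by
          apply mul_le_mul h5 h3 (by positivity) (by positivity)
    have h7 : C * (1 : ℝ) ^ 11 * ((M0 : ℕ) : ℝ) ^ 15 * (n : ℝ) ^ (19 / 20 : ℝ) ≤ c2 * (n : ℝ) ^ (1 - ε) := by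
      have h8 : (n : ℝ) ^ (1 / 25 : ℝ) * (n : ℝ) ^ (19 / 20 : ℝ) ≤ (n : ℝ) ^ (1 - ε) := by
        rw [← Real.rpow_add hn0]
        apply Real.rpow_le_rpow_of_exponent_le hnr
        linarith
      rw [div_le_iff₀ hc2pos] at hn1'
      calc C * (1 : ℝ) ^ 11 * ((M0 : ℕ) : ℝ) ^ 15 * (n : ℝ) ^ (19 / 20 : ℝ) = (C * (M0 : ℝ) ^ 15) * (n : ℝ) ^ (19 / 20 : ℝ) := by ring
        _ ≤ ((n : ℝ) ^ (1 / 25 : ℝ) * c2) * (n : ℝ) ^ (19 / 20 : ℝ) := by gcongr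
        _ = c2 * ((n : ℝ) ^ (1 / 25 : ℝ) * (n : ℝ) ^ (19 / 20 : ℝ)) := by ring
        _ ≤ _ := by gcongr
    have h9 : c1 * (n : ℝ) ^ (1 - ε) / (M0 : ℝ) ^ 4 = 2 * (c2 * (n : ℝ) ^ (1 - ε)) := by
      rw [hc2]; field_simp
    have h10 : ((∏ l ∈ T0, l : ℕ) : ℝ) = ((M0 : ℕ) : ℝ) := rfl
    rw [h10] at h4
    push_cast at h4 h7
    linarith
  · intro X hX l hl
    rw [← hNu] at hX
    unfold Nc at hX
    rw [Finset.mem_filter] at hX
    have h1 := hX.2 l hl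
    rw [h1]
    exact (hcc l hl).2

lemma red_BB (n l : ℕ) (hl : l.Prime) (X : Fin 4 → ℤ) (hX : ∑ i, X i ^ 2 = n) (hp : gc X = 1) (i j : Fin 4) (hij : i ≠ j)
    (hi : (l : ℤ) ∣ X i) (hj : (l : ℤ) ∣ X j) : red l X ∈ BB n l := by
  rw [mem_BB]
  refine ⟨red_mem n l hl X hX hp, i, j, hij, ?_, ?_⟩
  · have := dvd_sub hi (red_dvd l X i)
    simpa using this
  · have := dvd_sub hj (red_dvd l X j)
    simpa using this

lemma sq_mod8 (x : ℤ) : (x ^ 2 % 8 = 1 ∧ x % 2 = 1) ∨ (x ^ 2 % 4 = 0 ∧ x % 2 = 0) := by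
  have h : x % 8 = 0 ∨ x % 8 = 1 ∨ x % 8 = 2 ∨ x % 8 = 3 ∨ x % 8 = 4 ∨ x % 8 = 5 ∨ x % 8 = 6 ∨ x % 8 = 7 := by omega
  rcases h with h | h | h | h | h | h | h | h
  · right; refine ⟨?_, by omega⟩
    rw [pow_two, Int.mul_emod]; have : x % 4 = 0 := by omega
    rw [this]; rfl
  · left; refine ⟨?_, by omega⟩
    rw [pow_two, Int.mul_emod, h]; rfl
  · right; refine ⟨?_, by omega⟩
    rw [pow_two, Int.mul_emod]; have : x % 4 = 2 := by omega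
    rw [this]; rfl
  · left; refine ⟨?_, by omega⟩
    rw [pow_two, Int.mul_emod, h]; rfl
  · right; refine ⟨?_, by omega⟩
    rw [pow_two, Int.mul_emod]; have : x % 4 = 0 := by omega
    rw [this]; rfl
  · left; refine ⟨?_, by omega⟩
    rw [pow_two, Int.mul_emod, h]; rfl
  · right; refine ⟨?_, by omega⟩
    rw [pow_two, Int.mul_emod]; have : x % 4 = 2 := by omega
    rw [this]; rfl
  · left; refine ⟨?_, by omega⟩
    rw [pow_two, Int.mul_emod, h]; rfl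

/-- at most one coordinate is even -/
lemma two_even (n : ℕ) (hn : n % 8 = 3 ∨ n % 8 = 4 ∨ n % 8 = 7) (X : Fin 4 → ℤ) (hX : ∑ i, X i ^ 2 = n) (hp : gc X = 1)
    (i j : Fin 4) (hij : i ≠ j) (hi : (2 : ℤ) ∣ X i) (hj : (2 : ℤ) ∣ X j) : False := by
  have hX' := hX
  rw [Fin.sum_univ_four] at hX'
  have hnot : ¬ (∀ t, (2 : ℤ) ∣ X t) := by
    intro h
    have h1 : 2 ∣ gc X := (dvd_gc 2 X).2 (fun t => by exact_mod_cast h t)
    rw [hp] at h1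
    omega
  have h0 := sq_mod8 (X 0)
  have h1 := sq_mod8 (X 1)
  have h2 := sq_mod8 (X 2)
  have h3 := sq_mod8 (X 3)
  have hn' : (n : ℤ) % 8 = 3 ∨ (n : ℤ) % 8 = 4 ∨ (n : ℤ) % 8 = 7 := by omega
  have hnot' : ¬ (X 0 % 2 = 0 ∧ X 1 % 2 = 0 ∧ X 2 % 2 = 0 ∧ X 3 % 2 = 0) := by
    rintro ⟨a0, a1, a2, a3⟩
    apply hnot
    intro t
    fin_cases t
    · exact Int.dvd_of_emod_eq_zero a0
    · exact Int.dvd_of_emod_eq_zero a1
    · exact Int.dvd_of_emod_eq_zero a2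
    · exact Int.dvd_of_emod_eq_zero a3
  have hcase : ∀ i j : Fin 4, i ≠ j → (i = 0 ∧ j = 1) ∨ (i = 0 ∧ j = 2) ∨ (i = 0 ∧ j = 3) ∨ (i = 1 ∧ j = 2) ∨ (i = 1 ∧ j = 3) ∨
      (i = 2 ∧ j = 3) ∨ (i = 1 ∧ j = 0) ∨ (i = 2 ∧ j = 0) ∨ (i = 3 ∧ j = 0) ∨ (i = 2 ∧ j = 1) ∨ (i = 3 ∧ j = 1) ∨ (i = 3 ∧ j = 2) := by decide
  rcases hcase i j hij with ⟨rfl, rfl⟩ | ⟨rfl, rfl⟩ | ⟨rfl, rfl⟩ | ⟨rfl, rfl⟩ | ⟨rfl, rfl⟩ | ⟨rfl, rfl⟩ |
      ⟨rfl, rfl⟩ | ⟨rfl, rfl⟩ | ⟨rfl, rfl⟩ | ⟨rfl, rfl⟩ | ⟨rfl, rfl⟩ | ⟨rfl, rfl⟩ <;> omega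

end Pool.Agent.W65.CS
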