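import Pool.Agent.W65.FS.Kl
import Pool.Agent.H510R2.Div

/-!
# Sums of two squares: an upper bound for the number of representations
-/

set_option autoImplicit false
open Finset

namespace Pool.Agent.W65.CS

/-- representations as a sum of two squares -/
noncomputable def R2 (m : ℕ) : Finset (ℤ × ℤ) :=
  ((Icc (-(m : ℤ)) m) ×ˢ (Icc (-(m : ℤ)) m)).filter (fun p => p.1 ^ 2 + p.2 ^ 2 = m)

lemma abs_le_of_sq (m : ℕ) (x y : ℤ) (h : x ^ 2 + y ^ 2 = m) : -(m : ℤ) ≤ x ∧ x ≤ m := by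
  constructor <;> nlinarith [sq_nonneg y, sq_nonneg (x - 1), sq_nonneg (x + 1), sq_nonneg x]

lemma mem_R2 (m : ℕ) (x y : ℤ) : (x, y) ∈ R2 m ↔ x ^ 2 + y ^ 2 = m := by
  unfold R2
  rw [mem_filter, mem_product, mem_Icc, mem_Icc]
  constructor
  · exact fun h => h.2
  · intro h
    exact ⟨⟨abs_le_of_sq m x y h, abs_le_of_sq m y x (by rw [add_comm]; exact h)⟩, h⟩

/-- primitive ones -/
noncomputable def P2 (m : ℕ) : Finset (ℤ × ℤ) := (R2 m).filter (fun p => Int.gcd p.1 p.2 = 1)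

lemma unit_snd (m : ℕ) (x y : ℤ) (h : x ^ 2 + y ^ 2 = m) (hg : Int.gcd x y = 1) : IsUnit ((y : ℤ) : ZMod m) := by
  rw [ZMod.coe_int_isUnit_iff_isCoprime]
  have h1 : IsCoprime x y := Int.isCoprime_iff_gcd_eq_one.2 hg
  have h2 : IsCoprime (x ^ 2) y := h1.pow_left
  rw [← h]
  have : x ^ 2 + y ^ 2 = x ^ 2 + y * y := by ring
  rw [this]
  exact (IsCoprime.add_mul_left_left h2 y)

/-- square roots of `-1` -/
def T2 (m : ℕ) [NeZero m] : Finset (ZMod m) := univ.filter (fun t => t ^ 2 = -1)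

lemma fib_T2 (m : ℕ) (hm : 0 < m) (x y x' y' : ℤ) (h : x ^ 2 + y ^ 2 = m) (h' : x' ^ 2 + y' ^ 2 = m)
    (hd : (m : ℤ) ∣ x * y' - x' * y) :
    (x', y') ∈ ({(x, y), (-x, -y), (-y, x), (y, -x)} : Finset (ℤ × ℤ)) := by
  have hm' : (0 : ℤ) < m := by exact_mod_cast hm
  set D := x * y' - x' * y with hD
  set E := x * x' + y * y' with hE
  have h1 : D ^ 2 + E ^ 2 = (m : ℤ) ^ 2 := by
    rw [hD, hE]
    calc (x * y' - x' * y) ^ 2 + (x * x' + y * y') ^ 2 = (x ^ 2 + y ^ 2) * (x' ^ 2 + y' ^ 2) := by ring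
      _ = _ := by rw [h, h']; ring
  have e1 : (m : ℤ) * x' = x * E - y * D := by rw [← h, hD, hE]; ring
  have e2 : (m : ℤ) * y' = y * E + x * D := by rw [← h, hD, hE]; ring
  obtain ⟨k, hk⟩ := hd
  have hk1 : k = 0 ∨ k = 1 ∨ k = -1 := by
    have h2 : (m : ℤ) ^ 2 * k ^ 2 ≤ (m : ℤ) ^ 2 * 1 := by
      have : (m : ℤ) ^ 2 * k ^ 2 = D ^ 2 := by rw [hk]; ring
      rw [this, mul_one, ← h1]
      nlinarith [sq_nonneg E]
    have h3 : k ^ 2 ≤ 1 := le_of_mul_le_mul_left h2 (by positivity)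
    have h4 : -1 ≤ k := by nlinarith
    have h5 : k ≤ 1 := by nlinarith
    omega
  simp only [mem_insert, mem_singleton, Prod.mk.injEq]
  rcases hk1 with rfl | rfl | rfl
  · have hD0 : D = 0 := by rw [hk]; ring
    rw [hD0] at h1 e1 e2
    have h6 : (E - m) * (E + m) = 0 := by linear_combination h1
    rcases mul_eq_zero.1 h6 with h7 | h7
    · have hE' : E = m := by linarith
      rw [hE'] at e1 e2
      left
      exact ⟨mul_left_cancel₀ hm'.ne' (by linarith), mul_left_cancel₀ hm'.ne' (by linarith)⟩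
    · have hE' : E = -m := by linarith
      rw [hE'] at e1 e2
      right; left
      exact ⟨mul_left_cancel₀ hm'.ne' (by linarith), mul_left_cancel₀ hm'.ne' (by linarith)⟩
  · have hD0 : D = m := by rw [hk]; ring
    rw [hD0] at h1 e1 e2
    have hE' : E = 0 := by
      have : E ^ 2 = 0 := by linarith
      exact pow_eq_zero_iff (two_ne_zero) |>.1 this
    rw [hE'] at e1 e2
    right; right; left
    exact ⟨mul_left_cancel₀ hm'.ne' (by linarith), mul_left_cancel₀ hm'.ne' (by linarith)⟩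
  · have hD0 : D = -m := by rw [hk]; ring
    rw [hD0] at h1 e1 e2
    have hE' : E = 0 := by
      have : E ^ 2 = 0 := by nlinarith
      exact pow_eq_zero_iff (two_ne_zero) |>.1 this
    rw [hE'] at e1 e2
    right; right; right
    exact ⟨mul_left_cancel₀ hm'.ne' (by linarith), mul_left_cancel₀ hm'.ne' (by linarith)⟩

lemma P2_le (m : ℕ) [NeZero m] : (P2 m).card ≤ 4 * (T2 m).card := by
  classical
  have hm : 0 < m := Nat.pos_of_ne_zero (NeZero.ne m)
  apply Finset.card_le_mul_card_image_of_maps_to (f := fun p : ℤ × ℤ => (p.1 : ZMod m) * ((p.2 : ZMod m))⁻¹)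
  · rintro ⟨x, y⟩ hp
    rw [P2, mem_filter, mem_R2] at hp
    obtain ⟨h1, h2⟩ := hp
    have hu := unit_snd m x y h1 h2
    rw [T2, mem_filter]
    refine ⟨mem_univ _, ?_⟩
    simp only
    have h3 : ((x : ZMod m)) ^ 2 + (y : ZMod m) ^ 2 = 0 := by
      have : ((x ^ 2 + y ^ 2 : ℤ) : ZMod m) = ((m : ℤ) : ZMod m) := by rw [h1]
      push_cast at this
      rw [this]; simp
    have h4 : (y : ZMod m) * (y : ZMod m)⁻¹ = 1 := ZMod.mul_inv_of_unit _ hu
    calc ((x : ZMod m) * (y : ZMod m)⁻¹) ^ 2 = ((x : ZMod m)) ^ 2 * ((y : ZMod m)⁻¹) ^ 2 := by ring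
      _ = (- (y : ZMod m) ^ 2) * ((y : ZMod m)⁻¹) ^ 2 := by rw [eq_neg_of_add_eq_zero_left h3]
      _ = -((y : ZMod m) * (y : ZMod m)⁻¹) ^ 2 := by ring
      _ = -1 := by rw [h4]; ring
  · intro t _
    by_cases hne : ((P2 m).filter (fun p : ℤ × ℤ => (p.1 : ZMod m) * ((p.2 : ZMod m))⁻¹ = t)).Nonempty
    · obtain ⟨⟨x, y⟩, hp⟩ := hne
      rw [mem_filter, P2, mem_filter, mem_R2] at hp
      obtain ⟨⟨h1, h2⟩, h3⟩ := hp
      simp only at h3
      have hsub : (P2 m).filter (fun p : ℤ × ℤ => (p.1 : ZMod m) * ((p.2 : ZMod m))⁻¹ = t) ⊆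
          {(x, y), (-x, -y), (-y, x), (y, -x)} := by
        rintro ⟨x', y'⟩ hp'
        rw [mem_filter, P2, mem_filter, mem_R2] at hp'
        obtain ⟨⟨h1', h2'⟩, h3'⟩ := hp'
        simp only at h3' h2
        apply fib_T2 m hm x y x' y' h1 h1'
        rw [← ZMod.intCast_zmod_eq_zero_iff_dvd]
        push_cast
        have hu := ZMod.mul_inv_of_unit _ (unit_snd m x y h1 h2)
        have hu' := ZMod.mul_inv_of_unit _ (unit_snd m x' y' h1' h2')
        have g1 : (x : ZMod m) = t * y := by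
          rw [← h3]
          calc (x : ZMod m) = x * ((y : ZMod m) * (y : ZMod m)⁻¹) := by rw [hu, mul_one]
            _ = _ := by ring
        have g2 : (x' : ZMod m) = t * y' := by
          rw [← h3']
          calc (x' : ZMod m) = x' * ((y' : ZMod m) * (y' : ZMod m)⁻¹) := by rw [hu', mul_one]
            _ = _ := by ring
        rw [g1, g2]; ring
      exact (card_le_card hsub).trans Finset.card_le_four
    · rw [not_nonempty_iff_eq_empty.1 hne]
      simp

lemma two_dvd_of_roots (m : ℕ) (hm : 0 < m) (s t t' : ℤ) (hs : (m : ℤ) ∣ s ^ 2 + 1) (ht : (m : ℤ) ∣ t ^ 2 + 1)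
    (ht' : (m : ℤ) ∣ t' ^ 2 + 1) (hd : Int.gcd (t - s) m = Int.gcd (t' - s) m) : (m : ℤ) ∣ 2 * (t - t') := by
  set d := Int.gcd (t - s) m with hdd
  have hmz : (m : ℤ) ≠ 0 := by exact_mod_cast hm.ne'
  have hd0 : 0 < d := Int.gcd_pos_of_ne_zero_right _ hmz
  obtain ⟨e, he⟩ : (d : ℤ) ∣ m := Int.gcd_dvd_right _ _
  have key : ∀ r : ℤ, (m : ℤ) ∣ r ^ 2 + 1 → Int.gcd (r - s) m = d → (d : ℤ) ∣ r - s ∧ e ∣ r + s := by
    intro r hr hrd
    have h1 : (d : ℤ) ∣ r - s := by rw [← hrd]; exact Int.gcd_dvd_left _ _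
    refine ⟨h1, ?_⟩
    obtain ⟨u, hu⟩ := h1
    have hcop : IsCoprime u e := by
      have h2 := Int.gcd_div_gcd_div_gcd (i := r - s) (j := m) (by rw [hrd]; exact hd0)
      rw [hrd, hu, he] at h2
      rw [Int.mul_ediv_cancel_left _ (by exact_mod_cast hd0.ne'), Int.mul_ediv_cancel_left _ (by exact_mod_cast hd0.ne')] at h2
      exact Int.isCoprime_iff_gcd_eq_one.2 h2
    have h3 : (m : ℤ) ∣ (r - s) * (r + s) := by
      have h4 := dvd_sub hr hs
      have : r ^ 2 + 1 - (s ^ 2 + 1) = (r - s) * (r + s) := by ring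
      rwa [this] at h4
    rw [hu, he, mul_assoc] at h3
    have h5 : e ∣ u * (r + s) := (mul_dvd_mul_iff_left (by exact_mod_cast hd0.ne')).1 h3
    exact hcop.symm.dvd_of_dvd_mul_left h5
  obtain ⟨a1, a2⟩ := key t ht hdd.symm
  obtain ⟨b1, b2⟩ := key t' ht' hd.symm
  have c1 : (d : ℤ) ∣ t - t' := by
    have := dvd_sub a1 b1
    have h : t - s - (t' - s) = t - t' := by ring
    rwa [h] at this
  have c2 : e ∣ t - t' := by
    have := dvd_sub a2 b2
    have h : t + s - (t' + s) = t - t' := by ring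
    rwa [h] at this
  -- Bezout: 2 = combination
  set g := Int.gcd d e with hg
  have hg1 : (g : ℤ) ∣ 2 * s := by
    have g1 : (g : ℤ) ∣ d := Int.gcd_dvd_left _ _
    have g2 : (g : ℤ) ∣ e := Int.gcd_dvd_right _ _
    have := dvd_sub (g2.trans a2) (g1.trans a1)
    have h : t + s - (t - s) = 2 * s := by ring
    rwa [h] at this
  have hg2 : (g : ℤ) ∣ s ^ 2 + 1 := by
    have g1 : (g : ℤ) ∣ d := Int.gcd_dvd_left _ _
    exact g1.trans ((Dvd.intro _ he.symm).trans hs)
  have hg3 : (g : ℤ) ∣ 2 := by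
    have h1 := dvd_sub (hg2.mul_left 2) (hg1.mul_left s)
    have h : 2 * (s ^ 2 + 1) - s * (2 * s) = 2 := by ring
    rwa [h] at h1
  obtain ⟨w, hw⟩ := hg3
  have hbez := Int.gcd_eq_gcd_ab (d : ℤ) e
  rw [← hg] at hbez
  obtain ⟨p, hp⟩ := c1
  obtain ⟨q, hq⟩ := c2
  -- 2 (t - t') = w g (t - t') = w (d A + e B)(t - t')
  have : 2 * (t - t') = (d * e) * (w * (Int.gcdA d e * q + Int.gcdB d e * p)) := by
    calc 2 * (t - t') = w * (g * (t - t')) := by rw [hw]; ring
      _ = w * ((d : ℤ) * Int.gcdA d e * (t - t') + e * Int.gcdB d e * (t - t')) := by rw [hbez]; ring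
      _ = w * ((d : ℤ) * Int.gcdA d e * (e * q) + e * Int.gcdB d e * (d * p)) := by
          congr 1
          nth_rewrite 1 [hq]
          rw [hp]
      _ = _ := by ring
  rw [this, he]
  exact dvd_mul_right _ _

lemma T2_le (m : ℕ) [NeZero m] : (T2 m).card ≤ 2 * m.divisors.card := by
  classical
  have hm : 0 < m := Nat.pos_of_ne_zero (NeZero.ne m)
  by_cases hne : (T2 m).Nonempty
  · obtain ⟨s, hs⟩ := hne
    have hroot : ∀ t ∈ T2 m, (m : ℤ) ∣ ((t.val : ℤ)) ^ 2 + 1 := by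
      intro t ht
      rw [T2, mem_filter] at ht
      rw [← ZMod.intCast_zmod_eq_zero_iff_dvd]
      push_cast
      rw [ZMod.natCast_zmod_val, ht.2]
      ring
    apply Finset.card_le_mul_card_image_of_maps_to (f := fun t : ZMod m => Int.gcd ((t.val : ℤ) - s.val) m)
    · intro t _
      rw [Nat.mem_divisors]
      refine ⟨?_, hm.ne'⟩
      have : ((Int.gcd ((t.val : ℤ) - s.val) m : ℕ) : ℤ) ∣ m := Int.gcd_dvd_right _ _
      exact_mod_cast this
    · intro d _
      by_cases hne : ((T2 m).filter (fun t : ZMod m => Int.gcd ((t.val : ℤ) - s.val) m = d)).Nonempty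
      · obtain ⟨t', ht'⟩ := hne
        rw [mem_filter] at ht'
        have hk := Pool.Agent.W65.FS.card_ker_le m 2 two_pos
        refine le_trans ?_ hk
        apply Finset.card_le_card_of_injOn (fun t => t - t')
        · intro t ht
          rw [mem_coe, mem_filter] at ht
          have h1 := two_dvd_of_roots m hm s.val t.val t'.val (hroot s hs) (hroot t ht.1) (hroot t' ht'.1)
            (by rw [ht.2, ht'.2])
          rw [mem_coe, mem_filter]
          refine ⟨mem_univ _, ?_⟩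
          have h2 := (ZMod.intCast_zmod_eq_zero_iff_dvd _ m).2 h1
          push_cast at h2
          rw [ZMod.natCast_zmod_val, ZMod.natCast_zmod_val] at h2
          exact_mod_cast h2
        · intro a _ b _ hab
          simpa using hab
      · rw [not_nonempty_iff_eq_empty.1 hne]
        simp
  · rw [not_nonempty_iff_eq_empty.1 hne]
    simp

lemma P2_card (m : ℕ) (hm : 0 < m) : (P2 m).card ≤ 8 * m.divisors.card := by
  have : NeZero m := ⟨hm.ne'⟩
  have h1 := P2_le m
  have h2 := T2_le m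
  omega

lemma R2_card (m : ℕ) (hm : 0 < m) : (R2 m).card ≤ 8 * m.divisors.card ^ 2 := by
  classical
  have : 8 * m.divisors.card ^ 2 = (8 * m.divisors.card) * m.divisors.card := by ring
  rw [this]
  apply Finset.card_le_mul_card_image_of_maps_to (f := fun p : ℤ × ℤ => Int.gcd p.1 p.2)
  · rintro ⟨x, y⟩ hp
    rw [mem_R2] at hp
    rw [Nat.mem_divisors]
    refine ⟨?_, hm.ne'⟩
    have h1 : ((Int.gcd x y : ℕ) : ℤ) ∣ x := Int.gcd_dvd_left _ _
    have h2 : ((Int.gcd x y : ℕ) : ℤ) ∣ y := Int.gcd_dvd_right _ _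
    have h3 : ((Int.gcd x y : ℕ) : ℤ) ∣ m := by
      rw [← hp]
      exact dvd_add (dvd_pow h1 two_ne_zero) (dvd_pow h2 two_ne_zero)
    exact_mod_cast h3
  · intro g hg
    by_cases hne : ((R2 m).filter (fun p : ℤ × ℤ => Int.gcd p.1 p.2 = g)).Nonempty
    · obtain ⟨⟨x0, y0⟩, hp0⟩ := hne
      rw [mem_filter, mem_R2] at hp0
      obtain ⟨h1, h2⟩ := hp0
      simp only at h2
      have hg0 : 0 < g := by
        rw [← h2]
        apply Nat.pos_of_ne_zero
        intro h0
        rw [Int.gcd_eq_zero_iff] at h0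
        rw [h0.1, h0.2] at h1
        have : (m : ℤ) = 0 := by rw [← h1]; ring
        omega
      have hgz : (g : ℤ) ≠ 0 := by exact_mod_cast hg0.ne'
      obtain ⟨M, hM⟩ : g ^ 2 ∣ m := by
        have e1 : ((g : ℕ) : ℤ) ∣ x0 := by rw [← h2]; exact Int.gcd_dvd_left _ _
        have e2 : ((g : ℕ) : ℤ) ∣ y0 := by rw [← h2]; exact Int.gcd_dvd_right _ _
        have e3 : ((g : ℕ) : ℤ) ^ 2 ∣ m := by
          rw [← h1]
          exact dvd_add (pow_dvd_pow_of_dvd e1 2) (pow_dvd_pow_of_dvd e2 2)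
        exact_mod_cast e3
      have hM0 : 0 < M := by
        rcases Nat.eq_zero_or_pos M with h | h
        · rw [h] at hM; omega
        · exact h
      have h3 : ((R2 m).filter (fun p : ℤ × ℤ => Int.gcd p.1 p.2 = g)).card ≤ (P2 M).card := by
        apply Finset.card_le_card_of_injOn (fun p : ℤ × ℤ => (p.1 / g, p.2 / g))
        · rintro ⟨x, y⟩ hp
          rw [mem_coe, mem_filter, mem_R2] at hp
          obtain ⟨k1, k2⟩ := hp
          simp only at k2
          have e1 : ((g : ℕ) : ℤ) ∣ x := by rw [← k2]; exact Int.gcd_dvd_left _ _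
          have e2 : ((g : ℕ) : ℤ) ∣ y := by rw [← k2]; exact Int.gcd_dvd_right _ _
          obtain ⟨a, rfl⟩ := e1
          obtain ⟨b, rfl⟩ := e2
          simp only
          rw [Int.mul_ediv_cancel_left _ hgz, Int.mul_ediv_cancel_left _ hgz, mem_coe, P2, mem_filter, mem_R2]
          constructor
          · rw [hM] at k1
            push_cast at k1
            have : ((g : ℤ) ^ 2) * (a ^ 2 + b ^ 2) = (g : ℤ) ^ 2 * M := by linarith
            exact mul_left_cancel₀ (pow_ne_zero 2 hgz) this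
          · rw [Int.gcd_mul_left] at k2
            simp only [Int.natAbs_natCast] at k2
            exact Nat.eq_of_mul_eq_mul_left hg0 (by rw [k2, mul_one])
        · rintro ⟨x, y⟩ hp ⟨x', y'⟩ hp' hEq
          rw [mem_coe, mem_filter, mem_R2] at hp hp'
          obtain ⟨_, k2⟩ := hp
          obtain ⟨_, k2'⟩ := hp'
          simp only at k2 k2'
          have e1 : ((g : ℕ) : ℤ) ∣ x := by rw [← k2]; exact Int.gcd_dvd_left _ _
          have e2 : ((g : ℕ) : ℤ) ∣ y := by rw [← k2]; exact Int.gcd_dvd_right _ _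
          have e1' : ((g : ℕ) : ℤ) ∣ x' := by rw [← k2']; exact Int.gcd_dvd_left _ _
          have e2' : ((g : ℕ) : ℤ) ∣ y' := by rw [← k2']; exact Int.gcd_dvd_right _ _
          simp only [Prod.mk.injEq] at hEq
          rw [Prod.mk.injEq]
          constructor
          · rw [← Int.mul_ediv_cancel' e1, ← Int.mul_ediv_cancel' e1', hEq.1]
          · rw [← Int.mul_ediv_cancel' e2, ← Int.mul_ediv_cancel' e2', hEq.2]
      have h4 := P2_card M hM0
      have h5 : M.divisors.card ≤ m.divisors.card := by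
        apply card_le_card
        apply Nat.divisors_subset_of_dvd hm.ne'
        rw [hM]
        exact dvd_mul_left _ _
      omega
    · rw [not_nonempty_iff_eq_empty.1 hne]
      simp

/-- **bound for the number of representations as a sum of two squares** -/
theorem R2_bound (ε : ℝ) (hε : 0 < ε) : ∃ C : ℝ, 1 ≤ C ∧ ∀ m n : ℕ, m ≤ n → 1 ≤ n → ((R2 m).card : ℝ) ≤ C * (n : ℝ) ^ ε := by
  obtain ⟨C, hC, h⟩ := Pool.Agent.H510R2.divisor_bound (ε / 2) (by positivity)
  refine ⟨8 * C ^ 2 + 1, by nlinarith [sq_nonneg C], ?_⟩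
  intro m n hmn hn
  have hnr : (1 : ℝ) ≤ n := by exact_mod_cast hn
  have hn0 : (0 : ℝ) < n := by linarith
  have h1 : 1 ≤ (n : ℝ) ^ ε := Real.one_le_rpow hnr hε.le
  rcases Nat.eq_zero_or_pos m with rfl | hm
  · have : R2 0 ⊆ {(0, 0)} := by
      rintro ⟨x, y⟩ hp
      rw [mem_R2] at hp
      push_cast at hp
      have hx : x = 0 := by nlinarith [sq_nonneg x, sq_nonneg y]
      have hy : y = 0 := by nlinarith [sq_nonneg x, sq_nonneg y]
      simp [hx, hy]
    have h2 := card_le_card this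
    rw [card_singleton] at h2
    have h3 : ((R2 0).card : ℝ) ≤ 1 := by exact_mod_cast h2
    nlinarith [sq_nonneg C]
  · have h2 := R2_card m hm
    have h3 : ((R2 m).card : ℝ) ≤ 8 * (m.divisors.card : ℝ) ^ 2 := by exact_mod_cast h2
    have h4 := h m hm
    have hm0 : (0 : ℝ) < m := by exact_mod_cast hm
    have h5 : (m : ℝ) ^ (ε / 2) ≤ (n : ℝ) ^ (ε / 2) := Real.rpow_le_rpow hm0.le (by exact_mod_cast hmn) (by positivity)
    have h6 : (m.divisors.card : ℝ) ^ 2 ≤ C ^ 2 * (n : ℝ) ^ ε := by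
      calc (m.divisors.card : ℝ) ^ 2 ≤ (C * (n : ℝ) ^ (ε / 2)) ^ 2 := by
            gcongr
            exact h4.trans (by gcongr)
        _ = C ^ 2 * ((n : ℝ) ^ (ε / 2) * (n : ℝ) ^ (ε / 2)) := by ring
        _ = _ := by rw [← Real.rpow_add hn0]; congr 2; ring
    nlinarith

end Pool.Agent.W65.CS
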